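import Mathlib

open MeasureTheory Filter Topology Set Real
open scoped FourierTransform SchwartzMap

namespace Pool.Agent.Lib.MP_0880e2_an

/-- `ex s = e^{2 π i s}`. -/
noncomputable def ex (s : ℝ) : ℂ := ((𝐞 s : Circle) : ℂ)

lemma ex_add (a b : ℝ) : ex (a + b) = ex a * ex b := by
  simp [ex, AddChar.map_add_eq_mul]

lemma ex_zero : ex 0 = 1 := by simp [ex]

lemma norm_ex (s : ℝ) : ‖ex s‖ = 1 := by simp [ex]

@[fun_prop]
lemma continuous_ex : Continuous ex :=
  continuous_subtype_val.comp Real.continuous_fourierChar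

lemma ex_eq (s : ℝ) : ex s = Complex.exp ((2 * π * s : ℝ) * Complex.I) := by
  rw [ex, Real.fourierChar_apply]

lemma fourier_coe_eq_ex (n : ℤ) (x : ℝ) : fourier n (x : UnitAddCircle) = ex (n * x) := by
  rw [fourier_coe_apply, ex_eq]
  congr 1
  push_cast
  ring

lemma fourierInv_eq_ex {X : Type*} [NormedAddCommGroup X] [NormedSpace ℂ X] (G : ℝ → X) (x : ℝ) :
    𝓕⁻ G x = ∫ ξ, ex (ξ * x) • G ξ := by
  rw [Real.fourierInv_eq]
  congr 1
  funext ξ
  rw [Circle.smul_def, ex]
  simp [mul_comm]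

/-- A smooth bump supported in `[-1/16, 1/16]`. -/
noncomputable def bump : ContDiffBump (0 : ℝ) := ⟨1 / 32, 1 / 16, by norm_num, by norm_num⟩

/-- The bump as a complex function. -/
noncomputable def psi (ξ : ℝ) : ℂ := (bump ξ : ℝ)

lemma psi_contDiff : ContDiff ℝ (⊤ : ℕ∞) psi :=
  Complex.ofRealCLM.contDiff.comp bump.contDiff

@[fun_prop]
lemma continuous_psi : Continuous psi := psi_contDiff.continuous

lemma norm_psi_le (ξ : ℝ) : ‖psi ξ‖ ≤ 1 := by
  rw [psi, Complex.norm_real, Real.norm_of_nonneg bump.nonneg]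
  exact bump.le_one

lemma abs_lt_of_psi_ne_zero {ξ : ℝ} (h : psi ξ ≠ 0) : |ξ| < 1 / 16 := by
  by_contra hcon
  apply h
  rw [psi, bump.zero_of_le_dist (by simpa [bump] using hcon), Complex.ofReal_zero]

lemma hasCompactSupport_psi_sub (s : ℝ) : HasCompactSupport fun ξ => psi (ξ - s) := by
  refine HasCompactSupport.of_support_subset_isCompact (isCompact_Icc (a := s - 1) (b := s + 1))
    fun ξ hξ => ?_
  have := abs_lt.mp (abs_lt_of_psi_ne_zero hξ)
  constructor <;> linarith [this.1, this.2]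

/-- The translated bump as a Schwartz function. -/
noncomputable def psiS (s : ℝ) : 𝓢(ℝ, ℂ) :=
  (hasCompactSupport_psi_sub s).toSchwartzMap
    (psi_contDiff.comp (contDiff_id.sub contDiff_const))

/-- Its inverse Fourier transform. -/
noncomputable def phiS (s : ℝ) : 𝓢(ℝ, ℂ) := 𝓕⁻ (psiS s)

/-- The inverse Fourier transform of the bump. -/
noncomputable def phi (x : ℝ) : ℂ := phiS 0 x

lemma phiS_apply' (s x : ℝ) : phiS s x = ∫ ξ, ex (ξ * x) * psi (ξ - s) := by
  rw [phiS, SchwartzMap.fourierInv_coe, fourierInv_eq_ex]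
  rfl

lemma phi_eq (x : ℝ) : phi x = ∫ ξ, ex (ξ * x) * psi ξ := by
  simp [phi, phiS_apply']

lemma phiS_apply (s x : ℝ) : phiS s x = ex (s * x) * phi x := by
  rw [phiS_apply', phi_eq, ← integral_const_mul,
    ← integral_add_right_eq_self (fun ξ => ex (ξ * x) * psi (ξ - s)) s]
  congr 1
  funext ξ
  rw [add_sub_cancel_right, add_mul, ex_add]
  ring

@[fun_prop]
lemma continuous_phi : Continuous phi := (phiS 0).continuous

lemma fourier_phiS (s : ℝ) : 𝓕 (phiS s : ℝ → ℂ) = fun ξ => psi (ξ - s) := by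
  rw [← SchwartzMap.fourier_coe, phiS, FourierTransform.fourier_fourierInv_eq]
  rfl

lemma fourierInv_psi (s x : ℝ) : ∫ ξ, ex (ξ * x) * psi (ξ - s) = ex (s * x) * phi x := by
  rw [← phiS_apply', phiS_apply]

lemma poisson (s y : ℝ) :
    ∑' k : ℤ, ex (s * (y + k)) * phi (y + k) = ∑' n : ℤ, psi (n - s) * ex (n * y) := by
  have := SchwartzMap.tsum_eq_tsum_fourier (phiS s) y
  simp only [phiS_apply, fourier_coe_eq_ex] at this
  rw [this]
  congr 1
  funext n
  rw [SchwartzMap.fourier_coe, fourier_phiS]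

lemma exists_phi_bound : ∃ M : ℤ → ℝ, Summable M ∧ (∀ k, 0 ≤ M k) ∧
    ∀ (k : ℤ) (y : ℝ), |y| ≤ 1 / 2 → ‖phi (y + k)‖ ≤ M k := by
  obtain ⟨C0, hC0, h0⟩ := (phiS 0).decay 0 0
  obtain ⟨C2, hC2, h2⟩ := (phiS 0).decay 2 0
  simp only [norm_iteratedFDeriv_zero, pow_zero, one_mul, Real.norm_eq_abs, sq_abs] at h0 h2
  refine ⟨fun k => 2 * (C0 + C2) * (1 / (1 + (k : ℝ) ^ 2)), ?_, fun k => by positivity,
    fun k y hy => ?_⟩
  · refine Summable.mul_left _ ?_
    refine Summable.of_norm_bounded_eventually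
      (Real.summable_one_div_int_pow.mpr one_lt_two) ?_
    filter_upwards [Filter.eventually_cofinite_ne 0] with k hk
    have : (0 : ℝ) < (k : ℝ) ^ 2 := by positivity
    rw [Real.norm_of_nonneg (by positivity)]
    exact one_div_le_one_div_of_le this (by linarith)
  · have a0 := h0 (y + k)
    have a2 := h2 (y + k)
    have hn := norm_nonneg (phi (y + k))
    change ‖phi (y + k)‖ ≤ C0 at a0
    change (y + k) ^ 2 * ‖phi (y + k)‖ ≤ C2 at a2
    beta_reduce
    rw [mul_one_div, le_div_iff₀ (by positivity)]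
    have hy2 : y ^ 2 ≤ 1 / 4 := by
      have := abs_le.mp hy
      nlinarith
    have : 1 + (k : ℝ) ^ 2 ≤ 2 * (1 + (y + k) ^ 2) := by nlinarith [sq_nonneg (k + 2 * y)]
    nlinarith

lemma exists_phi_lower : ∃ c : ℝ, 0 < c ∧ ∀ y : ℝ, |y| ≤ 1 / 2 → c ≤ ‖phi y‖ := by
  have hint : Integrable (bump : ℝ → ℝ) := bump.integrable
  refine ⟨1 / 2 * ∫ ξ, bump ξ, by have := bump.integral_pos (μ := volume); positivity,
    fun y hy => le_trans ?_ (Complex.re_le_norm _)⟩
  have hi : Integrable fun ξ => ex (ξ * y) * psi ξ := by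
    refine Continuous.integrable_of_hasCompactSupport (by fun_prop) ?_
    have := hasCompactSupport_psi_sub 0
    simp only [sub_zero] at this
    exact this.mul_left
  have e := integral_re (𝕜 := ℂ) hi
  simp only [RCLike.re_to_complex] at e
  rw [phi_eq, ← e, ← integral_const_mul]
  refine integral_mono (hint.const_mul _) hi.re fun ξ => ?_
  simp only
  by_cases h0 : psi ξ = 0
  · have : bump ξ = 0 := by simpa [psi] using h0
    simp [h0, this]
  · have h1 := abs_lt_of_psi_ne_zero h0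
    rw [psi, Complex.re_mul_ofReal, ex_eq, Complex.exp_ofReal_mul_I_re]
    refine mul_le_mul_of_nonneg_right ?_ bump.nonneg
    have h2 : |2 * π * (ξ * y)| ≤ 1 := by
      rw [abs_mul, abs_mul ξ, abs_of_pos (by positivity : 0 < 2 * π)]
      have : |ξ| * |y| ≤ 1 / 16 * (1 / 2) :=
        mul_le_mul h1.le hy (abs_nonneg _) (by norm_num)
      nlinarith [Real.pi_lt_four, Real.pi_pos]
    have h3 := Real.one_sub_sq_div_two_le_cos (x := 2 * π * (ξ * y))
    have h4 : (2 * π * (ξ * y)) ^ 2 ≤ 1 := by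
      rw [← sq_abs]
      nlinarith [abs_nonneg (2 * π * (ξ * y))]
    linarith

end Pool.Agent.Lib.MP_0880e2_an
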