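import Mathlib

open MeasureTheory
open scoped ENNReal NNReal FourierTransform SchwartzMap

namespace Pool.Agent.Lib.MP_0880e2_an

/-- The `ℓ^q` norm, with values in `[0,∞]`, of a family of numbers in `[0,∞]`. -/
noncomputable def lqNorm {ι : Type*} (q : ℝ≥0∞) (a : ι → ℝ≥0∞) : ℝ≥0∞ :=
  if q = ∞ then ⨆ i, a i else (∑' i, a i ^ q.toReal) ^ (1 / q.toReal)

/-- A partition of an ordered set into (nonempty) intervals, that is order-convex sets. -/
def IsIntervalPartition {α : Type*} [Preorder α] (P : Set (Set α)) : Prop :=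
  Setoid.IsPartition P ∧ ∀ I ∈ P, I.OrdConnected

variable (X : Type*) [NormedAddCommGroup X] [NormedSpace ℂ X]

/-- The `X`-valued trigonometric polynomials on `𝕋 = ℝ / ℤ`. -/
def trigPolys : Set (UnitAddCircle → X) :=
  {f | ∃ (s : Finset ℤ) (x : ℤ → X), f = fun t => ∑ n ∈ s, fourier n t • x n}

/-- Finite sums `∑ φ_j x_j`, with `φ_j` Schwartz functions whose Fourier transforms have
compact support. -/
def schwartzC : Set (ℝ → X) :=
  {f | ∃ (m : ℕ) (φ : Fin m → 𝓢(ℝ, ℂ)) (x : Fin m → X),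
    (∀ j, HasCompactSupport (𝓕 (φ j : ℝ → ℂ))) ∧ f = fun t => ∑ j, φ j t • x j}

variable {X}

/-- `D_I f = ∑_{n ∈ I} f^(n) e_n` on the circle. -/
noncomputable def circleD (I : Set ℤ) (f : UnitAddCircle → X) : UnitAddCircle → X :=
  fun t => ∑' n : I, fourier (n : ℤ) t • fourierCoeff f (n : ℤ)

/-- `D_I f = 𝓕⁻¹ (1_I 𝓕 f)` on the line. -/
noncomputable def lineD (I : Set ℝ) (f : ℝ → X) : ℝ → X :=
  𝓕⁻ (I.indicator (𝓕 f))

variable (X)

/-- Upper `ℓ^q(L^p)`-decompositions on the circle. -/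
def UpperCircle (p q : ℝ≥0∞) : Prop :=
  ∃ U : ℝ≥0, 0 < U ∧ ∀ P : Set (Set ℤ), IsIntervalPartition P → ∀ f ∈ trigPolys X,
    eLpNorm f p AddCircle.haarAddCircle
      ≤ U * lqNorm q fun I : P => eLpNorm (circleD I f) p AddCircle.haarAddCircle

/-- Lower `ℓ^q(L^p)`-decompositions on the circle. -/
def LowerCircle (p q : ℝ≥0∞) : Prop :=
  ∃ L : ℝ≥0, 0 < L ∧ ∀ P : Set (Set ℤ), IsIntervalPartition P → ∀ f ∈ trigPolys X,
    (lqNorm q fun I : P => eLpNorm (circleD I f) p AddCircle.haarAddCircle)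
      ≤ L * eLpNorm f p AddCircle.haarAddCircle

/-- Upper `ℓ^q(L^p)`-decompositions on the line (countable partitions into intervals). -/
def UpperLine (p q : ℝ≥0∞) : Prop :=
  ∃ U : ℝ≥0, 0 < U ∧ ∀ P : Set (Set ℝ), IsIntervalPartition P → P.Countable →
    ∀ f ∈ schwartzC X,
      eLpNorm f p volume ≤ U * lqNorm q fun I : P => eLpNorm (lineD I f) p volume

/-- Lower `ℓ^q(L^p)`-decompositions on the line (countable partitions into intervals). -/
def LowerLine (p q : ℝ≥0∞) : Prop :=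
  ∃ L : ℝ≥0, 0 < L ∧ ∀ P : Set (Set ℝ), IsIntervalPartition P → P.Countable →
    ∀ f ∈ schwartzC X,
      (lqNorm q fun I : P => eLpNorm (lineD I f) p volume) ≤ L * eLpNorm f p volume

end Pool.Agent.Lib.MP_0880e2_an
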