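import Mathlib
import Pool.Agent.Lib.MP_0880e2_an.Defs

open MeasureTheory Filter Topology
open scoped ENNReal NNReal

namespace Pool.Agent.Lib.MP_0880e2_an

variable {ι κ : Type*} {q : ℝ≥0∞}

lemma toReal_pos_of (hq : 1 ≤ q) (h : q ≠ ∞) : 0 < q.toReal :=
  ENNReal.toReal_pos (by intro h0; rw [h0] at hq; simp at hq) h

lemma lq_le_of_rel (hq : 1 ≤ q) {a : ι → ℝ≥0∞} {b : κ → ℝ≥0∞} (R : ι → κ → Prop)
    (h : ∀ i, a i ≠ 0 → ∃ k, R i k ∧ a i ≤ b k)
    (hR : ∀ i i' k, R i k → R i' k → i = i') : lqNorm q a ≤ lqNorm q b := by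
  unfold lqNorm
  split_ifs with hq'
  · refine iSup_le fun i => ?_
    by_cases h0 : a i = 0
    · simp [h0]
    · obtain ⟨k, -, hk⟩ := h i h0
      exact hk.trans (le_iSup b k)
  · have hpos := toReal_pos_of hq hq'
    refine ENNReal.rpow_le_rpow ?_ (by positivity)
    choose e he using fun i : {i // a i ≠ 0} => h i.1 i.2
    have hinj : Function.Injective e := fun i i' hii =>
      Subtype.ext (hR _ _ _ (he i).1 (hii ▸ (he i').1))
    have h1 : ∑' i, a i ^ q.toReal = ∑' i : {i // a i ≠ 0}, a i ^ q.toReal := by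
      refine (tsum_subtype_eq_of_support_subset (s := {i | a i ≠ 0})
        (f := fun i => a i ^ q.toReal) ?_).symm
      intro i hi h0
      exact hi (by simp [h0, hpos])
    rw [h1]
    calc ∑' i : {i // a i ≠ 0}, a i ^ q.toReal ≤ ∑' i : {i // a i ≠ 0}, b (e i) ^ q.toReal :=
          ENNReal.tsum_le_tsum fun i => ENNReal.rpow_le_rpow (he i).2 hpos.le
      _ ≤ ∑' k, b k ^ q.toReal :=
          ENNReal.tsum_comp_le_tsum_of_injective hinj fun k => b k ^ q.toReal

lemma lq_mono (hq : 1 ≤ q) {a b : ι → ℝ≥0∞} (h : ∀ i, a i ≤ b i) : lqNorm q a ≤ lqNorm q b :=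
  lq_le_of_rel hq (fun i k => i = k) (fun i _ => ⟨i, rfl, h i⟩) fun _ _ _ h1 h2 => h1.trans h2.symm

lemma lq_const_mul (hq : 1 ≤ q) (c : ℝ≥0∞) (a : ι → ℝ≥0∞) :
    lqNorm q (fun i => c * a i) = c * lqNorm q a := by
  unfold lqNorm
  split_ifs with hq'
  · rw [ENNReal.mul_iSup]
  · have hpos := toReal_pos_of hq hq'
    simp_rw [ENNReal.mul_rpow_of_nonneg _ _ hpos.le]
    rw [ENNReal.tsum_mul_left, ENNReal.mul_rpow_of_nonneg _ _ (by positivity), ← ENNReal.rpow_mul,
      mul_one_div_cancel hpos.ne', ENNReal.rpow_one]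

lemma lq_le_of_liminf (hq : 1 ≤ q) {a : ι → ℝ≥0∞} {b : ℕ → ι → ℝ≥0∞} {B : ℝ≥0∞}
    (h : ∀ i, a i ≤ liminf (fun n => b n i) atTop) (hB : ∀ n, lqNorm q (b n) ≤ B) :
    lqNorm q a ≤ B := by
  unfold lqNorm at hB ⊢
  split_ifs at hB ⊢ with hq'
  · refine iSup_le fun i => (h i).trans ?_
    exact liminf_le_of_frequently_le' (Frequently.of_forall fun n => (le_iSup (b n) i).trans (hB n))
  · have hpos := toReal_pos_of hq hq'
    let _ : MeasurableSpace ι := ⊤
    have h1 : ∀ i, a i ^ q.toReal ≤ liminf (fun n => b n i ^ q.toReal) atTop := by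
      intro i
      have := (ENNReal.orderIsoRpow q.toReal hpos).liminf_apply (f := atTop) (u := fun n => b n i)
      simp only [ENNReal.orderIsoRpow_apply] at this
      rw [← this]
      exact ENNReal.rpow_le_rpow (h i) hpos.le
    have h2 : ∑' i, a i ^ q.toReal ≤ B ^ q.toReal := by
      calc ∑' i, a i ^ q.toReal ≤ ∑' i, liminf (fun n => b n i ^ q.toReal) atTop :=
            ENNReal.tsum_le_tsum h1
        _ = ∫⁻ i, liminf (fun n => b n i ^ q.toReal) atTop ∂Measure.count :=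
            (lintegral_count _).symm
        _ ≤ liminf (fun n => ∫⁻ i, b n i ^ q.toReal ∂Measure.count) atTop :=
            lintegral_liminf_le fun n => measurable_from_top
        _ ≤ B ^ q.toReal := by
            refine liminf_le_of_frequently_le' (Frequently.of_forall fun n => ?_)
            rw [lintegral_count]
            have := ENNReal.rpow_le_rpow (hB n) hpos.le
            rwa [← ENNReal.rpow_mul, one_div_mul_cancel hpos.ne', ENNReal.rpow_one] at this
    have := ENNReal.rpow_le_rpow h2 (by positivity : 0 ≤ 1 / q.toReal)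
    rwa [← ENNReal.rpow_mul, mul_one_div_cancel hpos.ne', ENNReal.rpow_one] at this

variable {α X : Type*} [MeasurableSpace α] [NormedAddCommGroup X] {μ : Measure α} {p : ℝ≥0∞}

lemma eLpNorm_le_of_tendsto {f : ℕ → α → X} (hf : ∀ n, AEStronglyMeasurable (f n) μ)
    {g : α → X} (hlim : ∀ᵐ x ∂μ, Tendsto (fun n => f n x) atTop (𝓝 (g x))) {B : ℝ≥0∞}
    (hB : ∀ n, eLpNorm (f n) p μ ≤ B) : eLpNorm g p μ ≤ B :=
  (Lp.eLpNorm_lim_le_liminf_eLpNorm hf g hlim).trans
    (liminf_le_of_frequently_le' (Frequently.of_forall hB))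

lemma eLpNorm_le_of_hasSum [Countable ι] {h : ι → α → X} (hm : ∀ k, AEStronglyMeasurable (h k) μ)
    {H : α → X} (hs : ∀ᵐ x ∂μ, HasSum (fun k => h k x) (H x)) {B : ℝ≥0∞}
    (hB : ∀ s : Finset ι, eLpNorm (fun x => ∑ k ∈ s, h k x) p μ ≤ B) : eLpNorm H p μ ≤ B := by
  obtain ⟨u, hu⟩ := Filter.exists_seq_tendsto (atTop : Filter (Finset ι))
  exact eLpNorm_le_of_tendsto (f := fun n x => ∑ k ∈ u n, h k x)
    (fun n => Finset.aestronglyMeasurable_fun_sum _ fun k _ => hm k)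
    (hs.mono fun x hx => hx.comp hu) fun n => hB (u n)

lemma eLpNorm_le_tsum [Countable ι] (hp : 1 ≤ p) {h : ι → α → X}
    (hm : ∀ k, AEStronglyMeasurable (h k) μ) {H : α → X}
    (hs : ∀ᵐ x ∂μ, HasSum (fun k => h k x) (H x)) :
    eLpNorm H p μ ≤ ∑' k, eLpNorm (h k) p μ := by
  refine eLpNorm_le_of_hasSum hm hs fun s => ?_
  have : (fun x => ∑ k ∈ s, h k x) = ∑ k ∈ s, h k := by
    funext x
    simp
  rw [this]
  exact (eLpNorm_sum_le (fun k _ => hm k) hp).trans (ENNReal.sum_le_tsum s)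

end Pool.Agent.Lib.MP_0880e2_an
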