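import Mathlib
import Pool.Agent.Lib.MP_0880e2_an.Defs
import Pool.Agent.Lib.MP_0880e2_an.Lq

open MeasureTheory Filter Topology Set
open scoped ENNReal NNReal

namespace Pool.Agent.Lib.MP_0880e2_an

variable {X : Type*} [NormedAddCommGroup X] [NormedSpace ℂ X]

/-- The trigonometric series with coefficients `a`. -/
noncomputable def tp (a : ℤ → X) : UnitAddCircle → X := fun t => ∑' n : ℤ, fourier n t • a n

lemma tp_eq_sum {a : ℤ → X} {s : Finset ℤ} (hs : ∀ n ∉ s, a n = 0) :
    tp a = fun t => ∑ n ∈ s, fourier n t • a n := by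
  funext t
  exact tsum_eq_sum fun n hn => by rw [hs n hn, smul_zero]

lemma tp_eq_sum' {a : ℤ → X} (ha : (Function.support a).Finite) :
    tp a = fun t => ∑ n ∈ ha.toFinset, fourier n t • a n :=
  tp_eq_sum fun n hn => by simpa using hn

lemma tp_mem {a : ℤ → X} (ha : (Function.support a).Finite) : tp a ∈ trigPolys X :=
  ⟨ha.toFinset, a, tp_eq_sum' ha⟩

lemma exists_tp {f : UnitAddCircle → X} (hf : f ∈ trigPolys X) :
    ∃ a : ℤ → X, (Function.support a).Finite ∧ f = tp a := by
  obtain ⟨s, x, rfl⟩ := hf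
  refine ⟨(s : Set ℤ).indicator x, s.finite_toSet.subset (support_indicator_subset), ?_⟩
  rw [tp_eq_sum (s := s) fun n hn => indicator_of_notMem (by simpa using hn) _]
  funext t
  exact Finset.sum_congr rfl fun n hn => by rw [indicator_of_mem (by simpa using hn)]

lemma tp_continuous {a : ℤ → X} (ha : (Function.support a).Finite) : Continuous (tp a) := by
  rw [tp_eq_sum' ha]
  fun_prop

lemma tp_zero : tp (0 : ℤ → X) = 0 := by
  funext t
  simp [tp]

lemma fourierCoeff_tp [CompleteSpace X] {a : ℤ → X} (ha : (Function.support a).Finite) (m : ℤ) :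
    fourierCoeff (tp a) m = a m := by
  rw [tp_eq_sum' ha, fourierCoeff]
  simp_rw [Finset.smul_sum, smul_smul]
  rw [integral_finsetSum]
  · have : ∀ n : ℤ, ∫ t : UnitAddCircle, (fourier (-m) t * fourier n t) • a n
        ∂AddCircle.haarAddCircle = (Pi.single n 1 : ℤ → ℂ) m • a n := by
      intro n
      rw [integral_smul_const, ← fourierCoeff_fourier (T := 1) n]
      rfl
    simp_rw [this]
    by_cases hm : m ∈ ha.toFinset
    · rw [Finset.sum_eq_single m]
      · simp
      · intro n _ hn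
        rw [Pi.single_eq_of_ne hn.symm, zero_smul]
      · exact fun h => absurd hm h
    · rw [Finset.sum_eq_zero]
      · symm
        simpa using hm
      · intro n hn
        rw [Pi.single_eq_of_ne (by rintro rfl; exact hm hn), zero_smul]
  · intro n _
    exact Continuous.integrable_of_hasCompactSupport (by fun_prop)
      (HasCompactSupport.of_compactSpace _)

lemma circleD_tp [CompleteSpace X] {a : ℤ → X} (ha : (Function.support a).Finite) (I : Set ℤ) :
    circleD I (tp a) = tp (I.indicator a) := by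
  funext t
  simp only [circleD, fourierCoeff_tp ha]
  rw [tsum_subtype I fun n : ℤ => fourier n t • a n, tp]
  congr 1
  funext n
  by_cases hn : n ∈ I <;> simp [hn]

lemma tp_shift (a : ℤ → X) (j : ℤ) (t : UnitAddCircle) :
    tp (fun n => a (n - j)) t = fourier j t • tp a t := by
  unfold tp
  rw [← (Equiv.addRight j).tsum_eq, ← tsum_const_smul'' (fourier j t)]
  congr 1
  funext n
  simp only [Equiv.coe_addRight, add_sub_cancel_right, smul_smul]
  rw [fourier_add, mul_comm]

lemma tp_sum {ι : Type*} (J : Finset ι) {a : ι → ℤ → X}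
    (ha : ∀ j ∈ J, (Function.support (a j)).Finite) (t : UnitAddCircle) :
    tp (fun n => ∑ j ∈ J, a j n) t = ∑ j ∈ J, tp (a j) t := by
  unfold tp
  simp_rw [Finset.smul_sum]
  refine Summable.tsum_finsetSum fun j hj => ?_
  refine summable_of_hasFiniteSupport ((ha j hj).subset fun n hn h0 => hn ?_)
  simp [h0]

lemma isIntervalPartition_ker {α β : Type*} [Preorder α] [PartialOrder β] {r : α → β}
    (hr : Monotone r) : IsIntervalPartition (Setoid.ker r).classes := by
  refine ⟨Setoid.isPartition_classes _, ?_⟩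
  rintro I ⟨y, rfl⟩
  refine ⟨fun a ha b hb x hx => ?_⟩
  have h1 : r a = r y := ha
  have h2 : r b = r y := hb
  exact le_antisymm (h2 ▸ hr hx.2) (h1 ▸ hr hx.1)

variable {p q : ℝ≥0∞}

/-- The upper estimate for finitely many trigonometric polynomials with ordered spectra. -/
theorem upper_family [CompleteSpace X] (hq : 1 ≤ q) {U : ℝ≥0}
    (hU : ∀ P : Set (Set ℤ), IsIntervalPartition P → ∀ f ∈ trigPolys X,
      eLpNorm f p AddCircle.haarAddCircle
        ≤ U * lqNorm q fun I : P => eLpNorm (circleD I f) p AddCircle.haarAddCircle)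
    {ι : Type*} (J : Finset ι) (ρ : ι → ℕ) (hρ : Set.InjOn ρ J) {a : ι → ℤ → X}
    (ha : ∀ j ∈ J, (Function.support (a j)).Finite)
    (hord : ∀ i ∈ J, ∀ j ∈ J, ρ i < ρ j → ∀ n m, a i n ≠ 0 → a j m ≠ 0 → n < m) :
    eLpNorm (tp fun n => ∑ j ∈ J, a j n) p AddCircle.haarAddCircle
      ≤ U * lqNorm q fun j : J => eLpNorm (tp (a j)) p AddCircle.haarAddCircle := by
  classical
  let r : ℤ → ℕ := fun n => (J.filter fun j => ∃ s, a j s ≠ 0 ∧ s ≤ n).sup ρ
  have hr : Monotone r := by
    intro n m hnm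
    refine Finset.sup_mono fun j hj => ?_
    rw [Finset.mem_filter] at hj ⊢
    obtain ⟨h1, s, h2, h3⟩ := hj
    exact ⟨h1, s, h2, h3.trans hnm⟩
  have hrj : ∀ j ∈ J, ∀ n, a j n ≠ 0 → r n = ρ j := by
    intro j hj n hn
    refine le_antisymm (Finset.sup_le fun i hi => ?_)
      (Finset.le_sup (Finset.mem_filter.mpr ⟨hj, n, hn, le_rfl⟩))
    obtain ⟨h1, s, h2, h3⟩ := Finset.mem_filter.mp hi
    by_contra hcon
    exact absurd (hord j hj i h1 (not_le.mp hcon) n s hn h2) (not_lt.mpr h3)
  have hfin : (Function.support fun n => ∑ j ∈ J, a j n).Finite := by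
    refine (Set.Finite.biUnion J.finite_toSet ha).subset fun n hn => ?_
    obtain ⟨j, hj, h⟩ := Finset.exists_ne_zero_of_sum_ne_zero hn
    exact mem_biUnion hj h
  refine (hU _ (isIntervalPartition_ker hr) _ (tp_mem hfin)).trans ?_
  gcongr
  refine lq_le_of_rel hq (fun I j => (I : Set ℤ) = {n | r n = ρ j}) ?_
    (fun I I' j h1 h2 => Subtype.ext (h1.trans h2.symm))
  rintro ⟨I, y, rfl⟩ hI
  simp only [circleD_tp hfin] at hI ⊢
  have hex : ∃ j ∈ J, ∃ n, a j n ≠ 0 ∧ r n = r y := by
    by_contra hcon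
    push Not at hcon
    apply hI
    have : ({x | (Setoid.ker r) x y}.indicator fun n => ∑ j ∈ J, a j n) = 0 := by
      funext n
      by_cases hn : r n = r y
      · rw [indicator_of_mem (by exact hn)]
        refine Finset.sum_eq_zero fun j hj => ?_
        by_contra h0
        exact hcon j hj n h0 hn
      · exact indicator_of_notMem (by exact hn) _
    rw [this, tp_zero, eLpNorm_zero]
  obtain ⟨j, hj, n, hn, hny⟩ := hex
  have hy : r y = ρ j := by rw [← hny, hrj j hj n hn]
  refine ⟨⟨j, hj⟩, ?_, le_of_eq ?_⟩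
  · ext m
    change r m = r y ↔ r m = ρ j
    rw [hy]
  · congr 2
    funext m
    by_cases hm : r m = r y
    · rw [indicator_of_mem (by exact hm), Finset.sum_eq_single j]
      · intro i hi hij
        by_contra h0
        exact hij (hρ hi hj (by rw [← hrj i hi m h0, hm, hy]))
      · exact fun h => absurd hj h
    · rw [indicator_of_notMem (by exact hm)]
      by_contra h0
      exact hm (by rw [hrj j hj m (Ne.symm h0), hy])

/-- The lower estimate for a disjoint cover of `ℤ` by possibly empty intervals. -/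
theorem lower_family [CompleteSpace X] (hq : 1 ≤ q) {L : ℝ≥0}
    (hL : ∀ P : Set (Set ℤ), IsIntervalPartition P → ∀ f ∈ trigPolys X,
      (lqNorm q fun I : P => eLpNorm (circleD I f) p AddCircle.haarAddCircle)
        ≤ L * eLpNorm f p AddCircle.haarAddCircle)
    {ι : Type*} (A : ι → Set ℤ) (hA : ∀ i, (A i).OrdConnected) (hcov : ∀ n, ∃! i, n ∈ A i)
    {a : ℤ → X} (ha : (Function.support a).Finite) :
    (lqNorm q fun i => eLpNorm (tp ((A i).indicator a)) p AddCircle.haarAddCircle)
      ≤ L * eLpNorm (tp a) p AddCircle.haarAddCircle := by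
  have hP : IsIntervalPartition {I | I.Nonempty ∧ ∃ i, A i = I} := by
    refine ⟨⟨fun h => Set.not_nonempty_empty h.1, fun n => ?_⟩, ?_⟩
    · obtain ⟨i, hi, hu⟩ := hcov n
      refine ⟨A i, ⟨⟨⟨n, hi⟩, i, rfl⟩, hi⟩, ?_⟩
      rintro I ⟨⟨-, j, rfl⟩, hj⟩
      rw [hu j hj]
    · rintro I ⟨-, i, rfl⟩
      exact hA i
  refine le_trans ?_ (hL _ hP _ (tp_mem ha))
  refine lq_le_of_rel hq (fun i I => A i = (I : Set ℤ)) (fun i hi => ?_) ?_
  · have hne : (A i).Nonempty := by
      rw [Set.nonempty_iff_ne_empty]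
      intro h0
      apply hi
      rw [h0, indicator_empty]
      exact (congrArg (fun f => eLpNorm f p AddCircle.haarAddCircle) tp_zero).trans eLpNorm_zero
    exact ⟨⟨A i, hne, i, rfl⟩, rfl, by rw [circleD_tp ha]⟩
  · intro i i' I h1 h2
    obtain ⟨n, hn⟩ := I.2.1
    obtain ⟨j, -, hu⟩ := hcov n
    have e1 : n ∈ A i := by rw [h1]; exact hn
    have e2 : n ∈ A i' := by rw [h2]; exact hn
    rw [hu i e1, hu i' e2]

lemma haar_eq_volume : (AddCircle.haarAddCircle : Measure UnitAddCircle) = volume := by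
  have := AddCircle.volume_eq_smul_haarAddCircle (T := 1)
  simpa using this.symm

omit [NormedSpace ℂ X] in
lemma eLpNorm_coe {F : UnitAddCircle → X} (hF : Continuous F) (t : ℝ) :
    eLpNorm (fun x : ℝ => F x) p (volume.restrict (Ioc t (t + 1)))
      = eLpNorm F p AddCircle.haarAddCircle := by
  rw [haar_eq_volume]
  exact eLpNorm_comp_measurePreserving hF.aestronglyMeasurable
    (UnitAddCircle.measurePreserving_mk t)

omit [NormedSpace ℂ X] in
lemma eLpNorm_scale {F : UnitAddCircle → X} (hF : Continuous F) {T : ℝ} (hT : 0 < T) :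
    eLpNorm (fun x : ℝ => F ((x / T : ℝ) : UnitAddCircle)) p
        (volume.restrict (Ioc (-(T / 2)) (T / 2)))
      = ENNReal.ofReal T ^ (1 / p).toReal * eLpNorm F p AddCircle.haarAddCircle := by
  have h1 : Measure.map (fun x : ℝ => T⁻¹ * x) (volume.restrict (Ioc (-(T / 2)) (T / 2)))
      = ENNReal.ofReal T • volume.restrict (Ioc (-(1 / 2) : ℝ) (-(1 / 2) + 1)) := by
    have hpre : (fun x : ℝ => T⁻¹ * x) ⁻¹' Ioc (-(1 / 2) : ℝ) (-(1 / 2) + 1)
        = Ioc (-(T / 2)) (T / 2) := by
      ext x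
      simp only [mem_preimage, mem_Ioc]
      rw [inv_mul_eq_div, lt_div_iff₀ hT, div_le_iff₀ hT]
      constructor <;> rintro ⟨h1, h2⟩ <;> constructor <;> linarith
    rw [← hpre, ← Measure.restrict_map (by fun_prop) measurableSet_Ioc,
      Real.map_volume_mul_left (inv_ne_zero hT.ne'), inv_inv, abs_of_pos hT, Measure.restrict_smul]
  have h2 : (fun x : ℝ => F ((x / T : ℝ) : UnitAddCircle))
      = (fun y : ℝ => F y) ∘ fun x : ℝ => T⁻¹ * x := by
    funext x
    simp [div_eq_inv_mul]
  have hc : Continuous fun y : ℝ => F y := hF.comp (AddCircle.continuous_mk' 1)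
  rw [h2, ← eLpNorm_map_measure hc.aestronglyMeasurable (by fun_prop), h1,
    eLpNorm_smul_measure_of_ne_zero (by simpa using hT), eLpNorm_coe hF, smul_eq_mul]

end Pool.Agent.Lib.MP_0880e2_an
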