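import Mathlib
import Pool.Agent.Lib.MP_0880e2_an.Circle
import Pool.Agent.Lib.MP_0880e2_an.Bump

open MeasureTheory Filter Topology Set
open scoped ENNReal NNReal FourierTransform SchwartzMap

namespace Pool.Agent.Lib.MP_0880e2_an

variable {X : Type*} [NormedAddCommGroup X] [NormedSpace ℂ X] {p q : ℝ≥0∞}

lemma mem_schwartzC {ι : Type*} (s : Finset ι) (φ : ι → 𝓢(ℝ, ℂ)) (x : ι → X)
    (h : ∀ i, HasCompactSupport (𝓕 (φ i : ℝ → ℂ))) :
    (fun t => ∑ i ∈ s, φ i t • x i) ∈ schwartzC X := by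
  refine ⟨s.card, fun j => φ (s.equivFin.symm j), fun j => x (s.equivFin.symm j),
    fun j => h _, ?_⟩
  funext t
  rw [← Finset.sum_coe_sort s, ← s.equivFin.symm.sum_comp]

lemma fourier_sum_smul [CompleteSpace X] {ι : Type*} (s : Finset ι) (φ : ι → 𝓢(ℝ, ℂ))
    (x : ι → X) :
    𝓕 (fun t => ∑ i ∈ s, φ i t • x i) = fun ξ => ∑ i ∈ s, 𝓕 (φ i : ℝ → ℂ) ξ • x i := by
  funext ξ
  simp only [Real.fourier_real_eq, Finset.smul_sum]
  rw [integral_finsetSum]
  · refine Finset.sum_congr rfl fun i _ => ?_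
    rw [← integral_smul_const]
    congr 1
    funext v
    rw [smul_assoc]
  · intro i _
    have h1 : Integrable fun v : ℝ => φ i v • x i := (φ i).integrable.smul_const _
    have := (Real.fourierIntegral_convergent_iff (μ := volume) ξ).mpr h1
    simpa [mul_comm] using this

lemma phi_tp_eq {a : ℤ → X} {s : Finset ℤ} (hs : ∀ n ∉ s, a n = 0) :
    (fun x : ℝ => phi x • tp a x) = fun x => ∑ n ∈ s, phiS n x • a n := by
  funext x
  rw [tp_eq_sum hs]
  simp only [Finset.smul_sum, smul_smul, phiS_apply, fourier_coe_eq_ex, mul_comm]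

lemma phi_tp_mem {a : ℤ → X} (ha : (Function.support a).Finite) :
    (fun x : ℝ => phi x • tp a x) ∈ schwartzC X := by
  rw [phi_tp_eq (s := ha.toFinset) fun n hn => by simpa using hn]
  refine mem_schwartzC _ (fun n : ℤ => phiS n) _ fun n => ?_
  rw [fourier_phiS]
  exact hasCompactSupport_psi_sub _

/-- Nearest integer. -/
noncomputable def rnd (ξ : ℝ) : ℤ := ⌊ξ + 1 / 2⌋

lemma rnd_mono : Monotone rnd := fun _ _ h => Int.floor_mono (by linarith)

lemma rnd_eq {ξ : ℝ} {n : ℤ} (h : |ξ - n| < 1 / 16) : rnd ξ = n := by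
  have := abs_lt.mp h
  rw [rnd, Int.floor_eq_iff]
  constructor <;> linarith [this.1, this.2]

lemma rnd_intCast (n : ℤ) : rnd n = n := rnd_eq (by simp)

lemma lineD_phi_tp [CompleteSpace X] {a : ℤ → X} (ha : (Function.support a).Finite) (I : Set ℤ) :
    lineD (rnd ⁻¹' I) (fun x : ℝ => phi x • tp a x)
      = fun x : ℝ => phi x • tp (I.indicator a) x := by
  have h0 : ∀ n ∉ ha.toFinset, a n = 0 := fun n hn => by simpa using hn
  have h1 : ∀ n ∉ ha.toFinset, I.indicator a n = 0 := fun n hn => by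
    rw [indicator_apply_eq_zero]
    exact fun _ => h0 n hn
  rw [phi_tp_eq h0, phi_tp_eq h1, lineD, fourier_sum_smul _ (fun n : ℤ => phiS n)]
  have h2 : ((rnd ⁻¹' I).indicator fun ξ => ∑ n ∈ ha.toFinset, 𝓕 (phiS n : ℝ → ℂ) ξ • a n)
      = fun ξ => ∑ n ∈ ha.toFinset, psi (ξ - n) • I.indicator a n := by
    funext ξ
    simp only [fourier_phiS]
    by_cases hξ : ξ ∈ rnd ⁻¹' I
    · rw [indicator_of_mem hξ]
      refine Finset.sum_congr rfl fun n _ => ?_
      by_cases hn : psi (ξ - n) = 0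
      · simp [hn]
      · rw [indicator_of_mem]
        rw [← rnd_eq (abs_lt_of_psi_ne_zero hn)]
        exact hξ
    · rw [indicator_of_notMem hξ]
      refine (Finset.sum_eq_zero fun n _ => ?_).symm
      by_cases hn : psi (ξ - n) = 0
      · simp [hn]
      · rw [indicator_of_notMem, smul_zero]
        rw [← rnd_eq (abs_lt_of_psi_ne_zero hn)]
        exact hξ
  rw [h2]
  funext x
  rw [fourierInv_eq_ex]
  simp only [Finset.smul_sum, smul_smul]
  rw [integral_finsetSum]
  · refine Finset.sum_congr rfl fun n _ => ?_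
    rw [integral_smul_const, phiS_apply']
  · intro n _
    refine Integrable.smul_const ?_ _
    exact Continuous.integrable_of_hasCompactSupport (by fun_prop)
      (hasCompactSupport_psi_sub _).mul_left

lemma preimage_partition {P : Set (Set ℤ)} (hP : IsIntervalPartition P) :
    IsIntervalPartition ((fun I => rnd ⁻¹' I) '' P) ∧ ((fun I => rnd ⁻¹' I) '' P).Countable := by
  refine ⟨⟨⟨?_, fun ξ => ?_⟩, ?_⟩, ?_⟩
  · rintro ⟨I, hI, h0⟩
    obtain ⟨n, hn⟩ := Setoid.nonempty_of_mem_partition hP.1 hI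
    have : (n : ℝ) ∈ rnd ⁻¹' I := by rwa [mem_preimage, rnd_intCast]
    simp only at h0
    rw [h0] at this
    exact this
  · obtain ⟨I, ⟨hI, hξ⟩, hu⟩ := hP.1.2 (rnd ξ)
    refine ⟨rnd ⁻¹' I, ⟨⟨I, hI, rfl⟩, hξ⟩, ?_⟩
    rintro _ ⟨⟨J, hJ, rfl⟩, hξ'⟩
    rw [hu J ⟨hJ, hξ'⟩]
  · rintro _ ⟨I, hI, rfl⟩
    exact (hP.2 I hI).preimage_mono rnd_mono
  · refine Set.Countable.image ?_ _
    exact hP.1.pairwiseDisjoint.countable_of_isOpen (fun I _ => isOpen_discrete _)
      fun I hI => Setoid.nonempty_of_mem_partition hP.1 hI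

lemma preimage_rnd_injective : Function.Injective fun I : Set ℤ => rnd ⁻¹' I :=
  Set.preimage_injective.mpr fun n => ⟨n, rnd_intCast n⟩

lemma exists_low : ∃ A : ℝ≥0, ∀ G : UnitAddCircle → X, Continuous G →
    eLpNorm G p AddCircle.haarAddCircle ≤ A * eLpNorm (fun x : ℝ => phi x • G x) p volume := by
  obtain ⟨c, hc, h⟩ := exists_phi_lower
  refine ⟨(c⁻¹).toNNReal, fun G hG => ?_⟩
  rw [← eLpNorm_coe hG (-(1 / 2))]
  refine (eLpNorm_le_mul_eLpNorm_of_ae_le_mul (g := fun x : ℝ => phi x • G x) (c := c⁻¹) ?_ p).trans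
    ?_
  · refine ae_restrict_of_forall_mem measurableSet_Ioc fun x hx => ?_
    have h1 := h x (abs_le.mpr ⟨hx.1.le, by linarith [hx.2]⟩)
    rw [norm_smul, ← mul_assoc]
    refine le_mul_of_one_le_left (norm_nonneg _) ?_
    rw [inv_mul_eq_div, le_div_iff₀ hc]
    linarith
  · exact mul_le_mul_right (eLpNorm_restrict_le _ _ _ _) _

lemma exists_up (hp : 1 ≤ p) : ∃ B : ℝ≥0, ∀ G : UnitAddCircle → X, Continuous G →
    eLpNorm (fun x : ℝ => phi x • G x) p volume ≤ B * eLpNorm G p AddCircle.haarAddCircle := by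
  obtain ⟨M, hM, hM0, h⟩ := exists_phi_bound
  refine ⟨(∑' k, M k).toNNReal, fun G hG => ?_⟩
  have hc : Continuous fun x : ℝ => phi x • G x :=
    continuous_phi.smul (hG.comp (AddCircle.continuous_mk' 1))
  refine (eLpNorm_le_tsum hp (h := fun k : ℤ => (Ioc ((k : ℝ) - 1 / 2) (k - 1 / 2 + 1)).indicator
    fun x : ℝ => phi x • G x) (fun k => hc.aestronglyMeasurable.indicator measurableSet_Ioc)
    (ae_of_all _ fun x => ?_)).trans ?_
  · have hx : x ∈ Ioc (((⌈x - 1 / 2⌉ : ℤ) : ℝ) - 1 / 2) ((⌈x - 1 / 2⌉ : ℤ) - 1 / 2 + 1) :=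
      ⟨by linarith [Int.ceil_lt_add_one (x - 1 / 2)], by linarith [Int.le_ceil (x - 1 / 2)]⟩
    have := hasSum_single (f := fun k : ℤ => (Ioc ((k : ℝ) - 1 / 2) (k - 1 / 2 + 1)).indicator
      (fun x : ℝ => phi x • G x) x) ⌈x - 1 / 2⌉ fun k hk => indicator_of_notMem (fun hk' => hk ?_) _
    · rwa [indicator_of_mem hx] at this
    · symm
      rw [Int.ceil_eq_iff]
      constructor <;> linarith [hk'.1, hk'.2]
  · change _ ≤ ENNReal.ofReal (∑' k, M k) * _
    rw [ENNReal.ofReal_tsum_of_nonneg hM0 hM, ← ENNReal.tsum_mul_right]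
    refine ENNReal.tsum_le_tsum fun k => ?_
    rw [eLpNorm_indicator_eq_eLpNorm_restrict measurableSet_Ioc, ← eLpNorm_coe hG (k - 1 / 2)]
    refine eLpNorm_le_mul_eLpNorm_of_ae_le_mul ?_ p
    refine ae_restrict_of_forall_mem measurableSet_Ioc fun x hx => ?_
    have h1 := h k (x - k) (abs_le.mpr ⟨by linarith [hx.1], by linarith [hx.2]⟩)
    rw [sub_add_cancel] at h1
    rw [norm_smul]
    exact mul_le_mul_of_nonneg_right h1 (norm_nonneg _)

omit [NormedSpace ℂ X] in
lemma finite_support_indicator {a : ℤ → X} (ha : (Function.support a).Finite) (I : Set ℤ) :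
    (Function.support (I.indicator a)).Finite :=
  ha.subset fun n hn h0 => hn (by rw [indicator_apply_eq_zero]; exact fun _ => h0)

theorem upperCircle_of_upperLine [CompleteSpace X] (hp : 1 ≤ p) (hq : 1 ≤ q)
    (h : UpperLine X p q) : UpperCircle X p q := by
  obtain ⟨U, -, hU⟩ := h
  obtain ⟨A, hA⟩ := exists_low (X := X) (p := p)
  obtain ⟨B, hB⟩ := exists_up (X := X) hp
  refine ⟨A * U * B + 1, by positivity, fun P hP f hf => ?_⟩
  obtain ⟨a, ha, rfl⟩ := exists_tp hf
  obtain ⟨hP1, hP2⟩ := preimage_partition hP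
  have h1 := hU _ hP1 hP2 _ (phi_tp_mem ha)
  have h2 : (lqNorm q fun I : ((fun I => rnd ⁻¹' I) '' P : Set (Set ℝ)) =>
      eLpNorm (lineD I fun x : ℝ => phi x • tp a x) p volume)
      ≤ B * lqNorm q fun I : P => eLpNorm (circleD I (tp a)) p AddCircle.haarAddCircle := by
    rw [← lq_const_mul hq]
    refine lq_le_of_rel hq (fun I' I => (I' : Set ℝ) = rnd ⁻¹' (I : Set ℤ)) ?_
      fun I I' J h1 h2 => Subtype.ext (h1.trans h2.symm)
    rintro ⟨_, I, hI, rfl⟩ -
    refine ⟨⟨I, hI⟩, rfl, ?_⟩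
    simp only [lineD_phi_tp ha, circleD_tp ha]
    exact hB _ (tp_continuous (finite_support_indicator ha I))
  calc eLpNorm (tp a) p AddCircle.haarAddCircle
      ≤ A * eLpNorm (fun x : ℝ => phi x • tp a x) p volume := hA _ (tp_continuous ha)
    _ ≤ A * (U * (B * lqNorm q fun I : P =>
          eLpNorm (circleD I (tp a)) p AddCircle.haarAddCircle)) := by
        gcongr
        exact h1.trans (by gcongr)
    _ = ((A * U * B : ℝ≥0) : ℝ≥0∞) * lqNorm q fun I : P =>
          eLpNorm (circleD I (tp a)) p AddCircle.haarAddCircle := by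
        push_cast
        ring
    _ ≤ _ := by
        gcongr
        exact le_self_add

theorem lowerCircle_of_lowerLine [CompleteSpace X] (hp : 1 ≤ p) (hq : 1 ≤ q)
    (h : LowerLine X p q) : LowerCircle X p q := by
  obtain ⟨L, -, hL⟩ := h
  obtain ⟨A, hA⟩ := exists_low (X := X) (p := p)
  obtain ⟨B, hB⟩ := exists_up (X := X) hp
  refine ⟨A * L * B + 1, by positivity, fun P hP f hf => ?_⟩
  obtain ⟨a, ha, rfl⟩ := exists_tp hf
  obtain ⟨hP1, hP2⟩ := preimage_partition hP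
  have h1 := hL _ hP1 hP2 _ (phi_tp_mem ha)
  have h2 : (lqNorm q fun I : P => eLpNorm (circleD I (tp a)) p AddCircle.haarAddCircle)
      ≤ A * lqNorm q fun I : ((fun I => rnd ⁻¹' I) '' P : Set (Set ℝ)) =>
        eLpNorm (lineD I fun x : ℝ => phi x • tp a x) p volume := by
    rw [← lq_const_mul hq]
    refine lq_le_of_rel hq (fun I I' => (I' : Set ℝ) = rnd ⁻¹' (I : Set ℤ)) ?_
      fun I I' J h1 h2 => Subtype.ext (preimage_rnd_injective (h1.symm.trans h2))
    rintro ⟨I, hI⟩ -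
    refine ⟨⟨_, I, hI, rfl⟩, rfl, ?_⟩
    simp only [lineD_phi_tp ha, circleD_tp ha]
    exact hA _ (tp_continuous (finite_support_indicator ha I))
  calc _ ≤ _ := h2
    _ ≤ A * (L * (B * eLpNorm (tp a) p AddCircle.haarAddCircle)) := by
        gcongr
        exact h1.trans (by gcongr; exact hB _ (tp_continuous ha))
    _ = ((A * L * B : ℝ≥0) : ℝ≥0∞) * eLpNorm (tp a) p AddCircle.haarAddCircle := by
        push_cast
        ring
    _ ≤ _ := by
        gcongr
        exact le_self_add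

end Pool.Agent.Lib.MP_0880e2_an
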