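import Mathlib
import Pool.Agent.Lib.MP_0880e2_an.LineToCircle

open MeasureTheory Filter Topology Set
open scoped ENNReal NNReal FourierTransform SchwartzMap

namespace Pool.Agent.Lib.MP_0880e2_an

variable {X : Type*} [NormedAddCommGroup X] [NormedSpace ℂ X] {p q : ℝ≥0∞}

/-- The coefficients of the periodisation at scale `T` of `𝓕⁻ G`. -/
noncomputable def coef (T : ℝ) (G : ℝ → X) (n : ℤ) : X := ∫ ξ, psi (n - T * ξ) • G ξ

/-- The kernel representing the part of the periodisation with frequencies in `A`. -/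
noncomputable def kerA (A : Set ℤ) (T y ξ : ℝ) : ℂ :=
  A.indicator (fun n : ℤ => psi (n - T * ξ) * ex (n * y)) (rnd (T * ξ))

lemma exists_of_coef_ne_zero {T : ℝ} {G : ℝ → X} {n : ℤ} (h : coef T G n ≠ 0) :
    ∃ ξ, G ξ ≠ 0 ∧ |n - T * ξ| < 1 / 16 := by
  by_contra hcon
  push Not at hcon
  apply h
  have : (fun ξ => psi (n - T * ξ) • G ξ) = fun _ => 0 := by
    funext ξ
    by_cases h0 : G ξ = 0
    · simp [h0]
    · by_cases h1 : psi (n - T * ξ) = 0
      · simp [h1]
      · exact absurd (abs_lt_of_psi_ne_zero h1) (not_lt.mpr (hcon ξ h0))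
  rw [coef, this, integral_zero]

omit [NormedSpace ℂ X] in
lemma finite_near {T R : ℝ} (hT : 0 ≤ T) {G : ℝ → X} (hR : ∀ ξ, G ξ ≠ 0 → |ξ| ≤ R) :
    {n : ℤ | ∃ ξ, G ξ ≠ 0 ∧ |n - T * ξ| < 1 / 16}.Finite := by
  refine (Set.finite_Icc (-⌈T * R + 1⌉) ⌈T * R + 1⌉).subset ?_
  rintro n ⟨ξ, h1, h2⟩
  have h3 : |T * ξ| ≤ T * R := by
    rw [abs_mul, abs_of_nonneg hT]
    exact mul_le_mul_of_nonneg_left (hR ξ h1) hT
  have h4 := abs_lt.mp h2
  have h5 := abs_le.mp h3
  have h6 := Int.le_ceil (T * R + 1)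
  constructor
  · have : ((-⌈T * R + 1⌉ : ℤ) : ℝ) ≤ n := by push_cast; linarith [h4.1, h5.1]
    exact_mod_cast this
  · have : (n : ℝ) ≤ ((⌈T * R + 1⌉ : ℤ) : ℝ) := by linarith [h4.2, h5.2]
    exact_mod_cast this

lemma finite_coef {T R : ℝ} (hT : 0 ≤ T) {G : ℝ → X} (hR : ∀ ξ, G ξ ≠ 0 → |ξ| ≤ R) :
    (Function.support (coef T G)).Finite :=
  (finite_near hT hR).subset fun _ hn => exists_of_coef_ne_zero hn

lemma tsum_indicator_psi (A : Set ℤ) (T y ξ : ℝ) :
    ∑' n : ℤ, A.indicator (fun n : ℤ => psi (n - T * ξ) * ex (n * y)) n = kerA A T y ξ := by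
  refine tsum_eq_single _ fun n hn => ?_
  rw [indicator_apply_eq_zero]
  intro _
  by_cases h1 : psi (n - T * ξ) = 0
  · simp [h1]
  · have := abs_lt_of_psi_ne_zero h1
    rw [abs_sub_comm] at this
    exact absurd (rnd_eq this).symm hn

lemma norm_kerA_le (A : Set ℤ) (T y ξ : ℝ) : ‖kerA A T y ξ‖ ≤ 1 := by
  refine (norm_indicator_le_norm_self _ _).trans ?_
  rw [norm_mul, norm_ex, mul_one]
  exact norm_psi_le _

lemma measurable_rnd : Measurable rnd := rnd_mono.measurable

lemma measurable_kerA (A : Set ℤ) (T y : ℝ) : Measurable (kerA A T y) := by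
  have h1 : Measurable fun ξ : ℝ => rnd (T * ξ) := measurable_rnd.comp (by fun_prop)
  have h2 : Measurable fun ξ : ℝ => ((rnd (T * ξ) : ℤ) : ℝ) :=
    (measurable_of_countable fun n : ℤ => (n : ℝ)).comp h1
  have h3 : kerA A T y = ((fun ξ : ℝ => rnd (T * ξ)) ⁻¹' A).indicator
      fun ξ => psi (rnd (T * ξ) - T * ξ) * ex (rnd (T * ξ) * y) := by
    funext ξ
    by_cases h : rnd (T * ξ) ∈ A <;> simp [kerA, h]
  rw [h3]
  refine Measurable.indicator ?_ (h1 (MeasurableSet.of_discrete))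
  exact (continuous_psi.measurable.comp (h2.sub (by fun_prop))).mul
    (continuous_ex.measurable.comp (h2.mul_const _))

lemma integrable_smul_of_bound {G : ℝ → X} (hG : Integrable G) {c : ℝ → ℂ} (hc : Measurable c)
    {C : ℝ} (h : ∀ ξ, ‖c ξ‖ ≤ C) : Integrable fun ξ => c ξ • G ξ :=
  hG.bdd_smul C hc.aestronglyMeasurable (ae_of_all _ h)

lemma tp_indicator_coef [CompleteSpace X] {T R : ℝ} (hT : 0 ≤ T) {G : ℝ → X} (hG : Integrable G)
    (hR : ∀ ξ, G ξ ≠ 0 → |ξ| ≤ R) (A : Set ℤ) (y : ℝ) :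
    tp (A.indicator (coef T G)) y = ∫ ξ, kerA A T y ξ • G ξ := by
  have hs := hasSum_integral_of_summable_integral_norm (μ := volume)
    (F := fun (n : ℤ) ξ => A.indicator (fun n : ℤ => psi (n - T * ξ) * ex (n * y)) n • G ξ)
    (fun n => ?_) ?_
  · have e1 : ∀ ξ, ∑' n : ℤ, A.indicator (fun n : ℤ => psi (n - T * ξ) * ex (n * y)) n • G ξ
        = kerA A T y ξ • G ξ := by
      intro ξ
      rw [← tsum_indicator_psi]
      refine Summable.tsum_smul_const (summable_of_ne_finset_zero (s := {rnd (T * ξ)})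
        fun n hn => ?_) _
      rw [indicator_apply_eq_zero]
      intro _
      by_cases h1 : psi (n - T * ξ) = 0
      · simp [h1]
      · have := abs_lt_of_psi_ne_zero h1
        rw [abs_sub_comm] at this
        exact absurd (Finset.mem_singleton.mpr (rnd_eq this).symm) hn
    simp only [e1] at hs
    rw [← hs.tsum_eq, tp]
    congr 1
    funext n
    by_cases hn : n ∈ A
    · simp only [indicator_of_mem hn, fourier_coe_eq_ex, coef]
      rw [← integral_smul]
      simp only [smul_smul, mul_comm]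
    · simp [hn]
  · by_cases hn : n ∈ A
    · simp only [indicator_of_mem hn]
      refine integrable_smul_of_bound hG (Continuous.measurable (by fun_prop)) (C := 1) fun ξ => ?_
      rw [norm_mul, norm_ex, mul_one]
      exact norm_psi_le _
    · simp [hn]
  · refine summable_of_hasFiniteSupport ((finite_near hT hR).subset fun n hn => ?_)
    by_contra hcon
    apply hn
    have : (fun ξ => ‖A.indicator (fun n : ℤ => psi (n - T * ξ) * ex (n * y)) n • G ξ‖)
        = fun _ => 0 := by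
      funext ξ
      by_cases h0 : G ξ = 0
      · simp [h0]
      · by_cases h1 : psi (n - T * ξ) = 0
        · by_cases hn : n ∈ A <;> simp [h1, hn]
        · exact absurd ⟨ξ, h0, abs_lt_of_psi_ne_zero h1⟩ hcon
    simp only [this, integral_zero]

lemma tp_coef [CompleteSpace X] {T R : ℝ} (hT : 0 ≤ T) {G : ℝ → X} (hG : Integrable G)
    (hR : ∀ ξ, G ξ ≠ 0 → |ξ| ≤ R) (y : ℝ) :
    tp (coef T G) y = ∫ ξ, kerA univ T y ξ • G ξ := by
  rw [← tp_indicator_coef hT hG hR, indicator_univ]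

lemma hasSum_periodize [CompleteSpace X] {T R : ℝ} (hT : 0 < T) {G : ℝ → X} (hG : Integrable G)
    (hR : ∀ ξ, G ξ ≠ 0 → |ξ| ≤ R) {x : ℝ} (hx : |x / T| ≤ 1 / 2) :
    HasSum (fun k : ℤ => phi (x / T + k) • 𝓕⁻ G (x + k * T))
      (tp (coef T G) ((x / T : ℝ) : UnitAddCircle)) := by
  obtain ⟨M, hM, -, hb⟩ := exists_phi_bound
  have hs := hasSum_integral_of_summable_integral_norm (μ := volume)
    (F := fun (k : ℤ) ξ => (ex (T * ξ * (x / T + k)) * phi (x / T + k)) • G ξ)
    (fun k => ?_) ?_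
  · have e1 : ∀ ξ, ∑' k : ℤ, (ex (T * ξ * (x / T + k)) * phi (x / T + k)) • G ξ
        = kerA univ T (x / T) ξ • G ξ := by
      intro ξ
      rw [← tsum_indicator_psi, indicator_univ, ← poisson]
      have hsum : Summable fun k : ℤ => ex (T * ξ * (x / T + k)) * phi (x / T + k) := by
        refine Summable.of_norm_bounded hM fun k => ?_
        rw [norm_mul, norm_ex, one_mul]
        exact hb k _ hx
      exact hsum.tsum_smul_const (G ξ)
    simp only [e1] at hs
    rw [tp_coef hT.le hG hR]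
    convert hs using 1
    funext k
    rw [fourierInv_eq_ex, ← integral_smul]
    congr 1
    funext ξ
    rw [smul_smul, mul_comm]
    congr 3
    field_simp
  · refine integrable_smul_of_bound hG (Continuous.measurable (by fun_prop))
      (C := ‖phi (x / T + k)‖) fun ξ => ?_
    rw [norm_mul, norm_ex, one_mul]
  · simp only [norm_smul, norm_mul, norm_ex, one_mul, integral_const_mul]
    exact (Summable.of_nonneg_of_le (fun k => norm_nonneg _) (fun k => hb k _ hx) hM).mul_right _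

lemma continuous_fourierInv' {G : ℝ → X} (hG : Integrable G) : Continuous (𝓕⁻ G) := by
  have : 𝓕⁻ G = fun x => ∫ ξ, ex (ξ * x) • G ξ := funext (fourierInv_eq_ex G)
  rw [this]
  refine continuous_of_dominated (bound := fun ξ => ‖G ξ‖) (fun x => ?_) (fun x => ?_) hG.norm ?_
  · exact (Continuous.aestronglyMeasurable (by fun_prop)).smul hG.aestronglyMeasurable
  · exact ae_of_all _ fun ξ => by rw [norm_smul, norm_ex, one_mul]
  · exact ae_of_all _ fun ξ => by fun_prop

lemma norm_fourierInv_le (G : ℝ → X) (x : ℝ) : ‖𝓕⁻ G x‖ ≤ ∫ ξ, ‖G ξ‖ := by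
  rw [fourierInv_eq_ex]
  refine (norm_integral_le_integral_norm _).trans (le_of_eq ?_)
  simp only [norm_smul, norm_ex, one_mul]

lemma abs_div_le_half {T x : ℝ} (hT : 0 < T) (hx : x ∈ Ioc (-(T / 2)) (T / 2)) :
    |x / T| ≤ 1 / 2 := by
  rw [abs_le, le_div_iff₀ hT, div_le_iff₀ hT]
  constructor <;> linarith [hx.1, hx.2]

/-- The scale factor. -/
noncomputable def kap (p : ℝ≥0∞) (T : ℝ) : ℝ≥0∞ := ENNReal.ofReal T ^ (1 / p).toReal

lemma exists_periodize_bound [CompleteSpace X] (hp : 1 ≤ p) : ∃ B : ℝ≥0, ∀ {T R : ℝ}, 0 < T →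
    ∀ {G : ℝ → X}, Integrable G → (∀ ξ, G ξ ≠ 0 → |ξ| ≤ R) →
      kap p T * eLpNorm (tp (coef T G)) p AddCircle.haarAddCircle
        ≤ B * eLpNorm (𝓕⁻ G) p volume := by
  obtain ⟨M, hM, hM0, hb⟩ := exists_phi_bound
  refine ⟨(∑' k, M k).toNNReal, fun {T R} hT {G} hG hR => ?_⟩
  have hc := continuous_fourierInv' hG
  rw [kap, ← eLpNorm_scale (tp_continuous (finite_coef hT.le hR)) hT]
  refine (eLpNorm_le_tsum hp (h := fun (k : ℤ) x => phi (x / T + k) • 𝓕⁻ G (x + k * T))
    (fun k => Continuous.aestronglyMeasurable (by fun_prop))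
    (ae_restrict_of_forall_mem measurableSet_Ioc fun x hx =>
      hasSum_periodize hT hG hR (abs_div_le_half hT hx))).trans ?_
  change _ ≤ ENNReal.ofReal (∑' k, M k) * _
  rw [ENNReal.ofReal_tsum_of_nonneg hM0 hM, ← ENNReal.tsum_mul_right]
  refine ENNReal.tsum_le_tsum fun k => ?_
  refine (eLpNorm_le_mul_eLpNorm_of_ae_le_mul (g := fun x => 𝓕⁻ G (x + k * T)) (c := M k) ?_
    p).trans ?_
  · refine ae_restrict_of_forall_mem measurableSet_Ioc fun x hx => ?_
    rw [norm_smul]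
    exact mul_le_mul_of_nonneg_right (hb k _ (abs_div_le_half hT hx)) (norm_nonneg _)
  · refine mul_le_mul_right ((eLpNorm_restrict_le _ _ _ _).trans (le_of_eq ?_)) _
    exact eLpNorm_comp_measurePreserving (g := 𝓕⁻ G) hc.aestronglyMeasurable
      (measurePreserving_add_right volume (k * T))

lemma tendsto_scale : Tendsto (fun n : ℕ => (n : ℝ) + 1) atTop atTop :=
  tendsto_atTop_add_const_right _ _ tendsto_natCast_atTop_atTop

lemma tendsto_div_scale (x : ℝ) : Tendsto (fun n : ℕ => x / ((n : ℝ) + 1)) atTop (𝓝 0) :=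
  tendsto_scale.const_div_atTop x

lemma eventually_mem_Ioc (x : ℝ) :
    ∀ᶠ n : ℕ in atTop, x ∈ Ioc (-(((n : ℝ) + 1) / 2)) (((n : ℝ) + 1) / 2) := by
  filter_upwards [tendsto_scale.eventually_gt_atTop (2 * |x|)] with n hn
  constructor <;> linarith [neg_abs_le x, le_abs_self x]

lemma tendsto_periodize [CompleteSpace X] {R : ℝ} {G : ℝ → X} (hG : Integrable G)
    (hR : ∀ ξ, G ξ ≠ 0 → |ξ| ≤ R) (x : ℝ) :
    Tendsto (fun n : ℕ => tp (coef ((n : ℝ) + 1) G) ((x / ((n : ℝ) + 1) : ℝ) : UnitAddCircle))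
      atTop (𝓝 (phi 0 • 𝓕⁻ G x)) := by
  obtain ⟨M, hM, hM0, hb⟩ := exists_phi_bound
  have hpos : ∀ n : ℕ, (0 : ℝ) < (n : ℝ) + 1 := fun n => by positivity
  have h1 := @tendsto_tsum_of_dominated_convergence _ _ _ atTop _ _
    (fun (n : ℕ) (k : ℤ) => phi (x / ((n : ℝ) + 1) + k) • 𝓕⁻ G (x + k * ((n : ℝ) + 1)))
    (fun k : ℤ => if k = 0 then phi 0 • 𝓕⁻ G x else 0)
    (fun k => M k * ∫ ξ, ‖G ξ‖) (hM.mul_right _) (fun k => ?_) ?_
  · rw [tsum_ite_eq] at h1
    refine h1.congr' ?_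
    filter_upwards [eventually_mem_Ioc x] with n hn
    exact (hasSum_periodize (hpos n) hG hR (abs_div_le_half (hpos n) hn)).tsum_eq
  · have hphi : Tendsto (fun n : ℕ => phi (x / ((n : ℝ) + 1) + k)) atTop (𝓝 (phi k)) := by
      have := (tendsto_div_scale x).add_const (k : ℝ)
      rw [zero_add] at this
      exact (continuous_phi.tendsto _).comp this
    split_ifs with hk
    · subst hk
      simpa using hphi.smul_const (𝓕⁻ G x)
    · have h2 : Tendsto (fun n : ℕ => -(x + k * ((n : ℝ) + 1))) atTop (cocompact ℝ) := by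
        rw [cocompact_eq_atBot_atTop]
        rcases lt_or_gt_of_ne hk with h | h
        · refine Tendsto.mono_right ?_ le_sup_right
          refine tendsto_neg_atBot_atTop.comp (tendsto_atBot_add_const_left _ _ ?_)
          exact tendsto_scale.const_mul_atTop_of_neg (by exact_mod_cast h)
        · refine Tendsto.mono_right ?_ le_sup_left
          refine tendsto_neg_atTop_atBot.comp (tendsto_atTop_add_const_left _ _ ?_)
          exact tendsto_scale.const_mul_atTop (by exact_mod_cast h)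
      have h3 := (Real.zero_at_infty_fourier G).comp h2
      have h4 : Tendsto (fun n : ℕ => 𝓕⁻ G (x + k * ((n : ℝ) + 1))) atTop (𝓝 0) := by
        simpa only [Real.fourierInv_eq_fourier_neg, Function.comp_def] using h3
      simpa using hphi.smul h4
  · filter_upwards [eventually_mem_Ioc x] with n hn k
    rw [norm_smul]
    exact mul_le_mul (hb k _ (abs_div_le_half (hpos n) hn)) (norm_fourierInv_le _ _)
      (norm_nonneg _) (hM0 k)

lemma tendsto_rnd_div (ξ : ℝ) :
    Tendsto (fun n : ℕ => ((rnd (((n : ℝ) + 1) * ξ) : ℤ) : ℝ) / ((n : ℝ) + 1)) atTop (𝓝 ξ) := by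
  have hpos : ∀ n : ℕ, (0 : ℝ) < (n : ℝ) + 1 := fun n => by positivity
  have h1 := (tendsto_div_scale (-1)).const_add ξ
  have h2 := (tendsto_div_scale 1).const_add ξ
  rw [add_zero] at h1 h2
  refine tendsto_of_tendsto_of_tendsto_of_le_of_le h1 h2 (fun n => ?_) (fun n => ?_)
  · have := Int.sub_one_lt_floor (((n : ℝ) + 1) * ξ + 1 / 2)
    simp only
    rw [le_div_iff₀ (hpos n), add_mul, div_mul_cancel₀ _ (hpos n).ne', rnd]
    linarith
  · have := Int.floor_le (((n : ℝ) + 1) * ξ + 1 / 2)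
    simp only
    rw [div_le_iff₀ (hpos n), add_mul ξ, div_mul_cancel₀ _ (hpos n).ne', rnd]
    linarith

omit [NormedSpace ℂ X] in
lemma bound_indicator {R : ℝ} {G : ℝ → X} (hR : ∀ ξ, G ξ ≠ 0 → |ξ| ≤ R) (I : Set ℝ) :
    ∀ ξ, I.indicator G ξ ≠ 0 → |ξ| ≤ R :=
  fun ξ h => hR ξ fun h0 => h (by rw [indicator_apply_eq_zero]; exact fun _ => h0)

lemma tendsto_periodize_indicator [CompleteSpace X] {R : ℝ} {G : ℝ → X} (hG : Integrable G)
    (hR : ∀ ξ, G ξ ≠ 0 → |ξ| ≤ R) {I : Set ℝ} (hI : I.OrdConnected) (x : ℝ) :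
    Tendsto (fun n : ℕ => tp ({m : ℤ | (m : ℝ) / ((n : ℝ) + 1) ∈ I}.indicator
      (coef ((n : ℝ) + 1) G)) ((x / ((n : ℝ) + 1) : ℝ) : UnitAddCircle))
      atTop (𝓝 (phi 0 • 𝓕⁻ (I.indicator G) x)) := by
  have hpos : ∀ n : ℕ, (0 : ℝ) < (n : ℝ) + 1 := fun n => by positivity
  have hGI : Integrable (I.indicator G) := hG.indicator hI.measurableSet
  have h1 := tendsto_periodize hGI (bound_indicator hR I) x
  have hi1 : ∀ n : ℕ, Integrable fun ξ => kerA {m : ℤ | (m : ℝ) / ((n : ℝ) + 1) ∈ I}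
      ((n : ℝ) + 1) (x / ((n : ℝ) + 1)) ξ • G ξ := fun n =>
    integrable_smul_of_bound hG (measurable_kerA _ _ _) (norm_kerA_le _ _ _)
  have hi2 : ∀ n : ℕ, Integrable fun ξ => kerA univ
      ((n : ℝ) + 1) (x / ((n : ℝ) + 1)) ξ • I.indicator G ξ := fun n =>
    integrable_smul_of_bound hGI (measurable_kerA _ _ _) (norm_kerA_le _ _ _)
  have h2 := tendsto_integral_of_dominated_convergence (μ := volume)
    (F := fun (n : ℕ) ξ => kerA {m : ℤ | (m : ℝ) / ((n : ℝ) + 1) ∈ I}
      ((n : ℝ) + 1) (x / ((n : ℝ) + 1)) ξ • G ξ - kerA univ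
      ((n : ℝ) + 1) (x / ((n : ℝ) + 1)) ξ • I.indicator G ξ) (f := fun _ => 0)
    (fun ξ => ‖G ξ‖ + ‖G ξ‖) (fun n => ((hi1 n).sub (hi2 n)).aestronglyMeasurable)
    (hG.norm.add hG.norm) (fun n => ae_of_all _ fun ξ => ?_) ?_
  · rw [integral_zero] at h2
    have h3 := h2.add h1
    rw [zero_add] at h3
    refine h3.congr fun n => ?_
    rw [integral_sub (hi1 n) (hi2 n), tp_indicator_coef (hpos n).le hG hR,
      tp_coef (hpos n).le hGI (bound_indicator hR I), sub_add_cancel]
  · refine (norm_sub_le _ _).trans (add_le_add ?_ ?_)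
    · rw [norm_smul]
      exact mul_le_of_le_one_left (norm_nonneg _) (norm_kerA_le _ _ _ _)
    · rw [norm_smul]
      exact (mul_le_of_le_one_left (norm_nonneg _) (norm_kerA_le _ _ _ _)).trans
        (norm_indicator_le_norm_self _ _)
  · have hnull : volume (frontier I) = 0 := hI.convex.addHaar_frontier volume
    filter_upwards [measure_eq_zero_iff_ae_notMem.mp hnull] with ξ hξ
    refine tendsto_const_nhds.congr' ?_
    by_cases hin : ξ ∈ I
    · have hint : ξ ∈ interior I := by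
        by_contra hcon
        exact hξ ⟨subset_closure hin, hcon⟩
      filter_upwards [(tendsto_rnd_div ξ).eventually (mem_interior_iff_mem_nhds.mp hint)] with n hn
      rw [indicator_of_mem hin, kerA, kerA, indicator_of_mem (by exact hn),
        indicator_of_mem (mem_univ _), sub_self]
    · have hint : ξ ∈ interior Iᶜ := by
        rw [interior_compl]
        intro hcl
        exact hξ ⟨hcl, fun h => hin (interior_subset h)⟩
      filter_upwards [(tendsto_rnd_div ξ).eventually (mem_interior_iff_mem_nhds.mp hint)] with n hn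
      rw [indicator_of_notMem hin, kerA, indicator_of_notMem (by exact hn), zero_smul, smul_zero,
        sub_self]

omit [NormedSpace ℂ X] in
lemma fatou_scale {F : ℕ → UnitAddCircle → X} (hF : ∀ n, Continuous (F n)) {g : ℝ → X}
    (hlim : ∀ x, Tendsto (fun n : ℕ => F n ((x / ((n : ℝ) + 1) : ℝ) : UnitAddCircle)) atTop
      (𝓝 (g x))) :
    eLpNorm g p volume ≤ liminf (fun n : ℕ => kap p ((n : ℝ) + 1) *
      eLpNorm (F n) p AddCircle.haarAddCircle) atTop := by
  have hpos : ∀ n : ℕ, (0 : ℝ) < (n : ℝ) + 1 := fun n => by positivity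
  have h := Lp.eLpNorm_lim_le_liminf_eLpNorm (p := p) (μ := volume)
    (f := fun n : ℕ => (Ioc (-(((n : ℝ) + 1) / 2)) (((n : ℝ) + 1) / 2)).indicator
      fun x : ℝ => F n ((x / ((n : ℝ) + 1) : ℝ) : UnitAddCircle)) (fun n => ?_) g
    (ae_of_all _ fun x => ?_)
  · simpa only [eLpNorm_indicator_eq_eLpNorm_restrict measurableSet_Ioc,
      eLpNorm_scale (hF _) (hpos _), kap] using h
  · refine AEStronglyMeasurable.indicator (Continuous.aestronglyMeasurable ?_) measurableSet_Ioc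
    exact (hF n).comp ((AddCircle.continuous_mk' 1).comp (by fun_prop))
  · refine (hlim x).congr' ?_
    filter_upwards [eventually_mem_Ioc x] with n hn
    rw [indicator_of_mem hn]

end Pool.Agent.Lib.MP_0880e2_an
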