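import Mathlib
import Pool.Agent.Lib.MP_0880e2_an.Periodize

open MeasureTheory Filter Topology Set
open scoped ENNReal NNReal FourierTransform SchwartzMap

namespace Pool.Agent.Lib.MP_0880e2_an

variable {X : Type*} [NormedAddCommGroup X] [NormedSpace ℂ X] {p q : ℝ≥0∞}

lemma schwartzC_facts [CompleteSpace X] {f : ℝ → X} (hf : f ∈ schwartzC X) :
    Integrable (𝓕 f) ∧ (∃ R : ℝ, ∀ ξ, 𝓕 f ξ ≠ 0 → |ξ| ≤ R) ∧ 𝓕⁻ (𝓕 f) = f := by
  obtain ⟨m, φ, x, hφ, rfl⟩ := hf
  have hint : Integrable (𝓕 fun t => ∑ j, φ j t • x j) := by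
    rw [fourier_sum_smul]
    refine integrable_finsetSum _ fun j _ => Integrable.smul_const ?_ _
    rw [← SchwartzMap.fourier_coe]
    exact (𝓕 (φ j)).integrable
  refine ⟨hint, ?_, ?_⟩
  · have hK : IsCompact (⋃ j, tsupport (𝓕 (φ j : ℝ → ℂ))) := isCompact_iUnion fun j => hφ j
    obtain ⟨R, hR⟩ := hK.isBounded.exists_norm_le
    refine ⟨R, fun ξ hξ => hR ξ ?_⟩
    rw [fourier_sum_smul] at hξ
    obtain ⟨j, -, hj⟩ := Finset.exists_ne_zero_of_sum_ne_zero hξ
    exact mem_iUnion.mpr ⟨j, subset_tsupport _ fun h0 => hj (by rw [h0, zero_smul])⟩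
  · refine Continuous.fourierInv_fourier_eq ?_ ?_ hint
    · exact continuous_finsetSum _ fun j _ => (φ j).continuous.smul continuous_const
    · exact integrable_finsetSum _ fun j _ => (φ j).integrable.smul_const _

lemma exists_phi_zero_inv : ∃ A : ℝ≥0, ∀ (X : Type*) [NormedAddCommGroup X] [NormedSpace ℂ X]
    (p : ℝ≥0∞) (g : ℝ → X), eLpNorm g p volume ≤ A * eLpNorm (fun x => phi 0 • g x) p volume := by
  obtain ⟨c, hc, h⟩ := exists_phi_lower
  refine ⟨(c⁻¹).toNNReal, fun X _ _ p g => eLpNorm_le_mul_eLpNorm_of_ae_le_mul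
    (ae_of_all _ fun x => ?_) p⟩
  have h1 := h 0 (by simp)
  rw [norm_smul, ← mul_assoc]
  refine le_mul_of_one_le_left (norm_nonneg _) ?_
  rw [inv_mul_eq_div, le_div_iff₀ hc]
  linarith

theorem lowerLine_of_lowerCircle [CompleteSpace X] (hp : 1 ≤ p) (hq : 1 ≤ q)
    (h : LowerCircle X p q) : LowerLine X p q := by
  obtain ⟨L, -, hL⟩ := h
  obtain ⟨A, hA⟩ := exists_phi_zero_inv
  obtain ⟨B, hB⟩ := exists_periodize_bound (X := X) hp
  refine ⟨A * L * B + 1, by positivity, fun P hP _ f hf => ?_⟩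
  obtain ⟨hG, ⟨R, hR⟩, hinv⟩ := schwartzC_facts hf
  have hpos : ∀ n : ℕ, (0 : ℝ) < (n : ℝ) + 1 := fun n => by positivity
  have h1 : (lqNorm q fun I : P => eLpNorm (fun x => phi 0 • lineD I f x) p volume)
      ≤ L * (B * eLpNorm f p volume) := by
    refine lq_le_of_liminf hq (b := fun (n : ℕ) (I : P) => kap p ((n : ℝ) + 1) *
      eLpNorm (tp ({m : ℤ | (m : ℝ) / ((n : ℝ) + 1) ∈ (I : Set ℝ)}.indicator
        (coef ((n : ℝ) + 1) (𝓕 f)))) p AddCircle.haarAddCircle) (fun I => ?_) fun n => ?_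
    · exact fatou_scale (fun n => tp_continuous
        (finite_support_indicator (finite_coef (hpos n).le hR) _))
        (tendsto_periodize_indicator hG hR (hP.2 I I.2))
    · rw [lq_const_mul hq]
      have h2 := lower_family hq hL
        (fun I : P => {m : ℤ | (m : ℝ) / ((n : ℝ) + 1) ∈ (I : Set ℝ)}) (fun I => ?_) (fun m => ?_)
        (finite_coef (hpos n).le hR)
      · calc _ ≤ kap p ((n : ℝ) + 1) * (L * eLpNorm (tp (coef ((n : ℝ) + 1) (𝓕 f))) p
              AddCircle.haarAddCircle) := by gcongr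
          _ = L * (kap p ((n : ℝ) + 1) * eLpNorm (tp (coef ((n : ℝ) + 1) (𝓕 f))) p
              AddCircle.haarAddCircle) := by ring
          _ ≤ L * (B * eLpNorm f p volume) := by
            have := hB (hpos n) hG hR
            rw [hinv] at this
            exact mul_le_mul_right this _
      · refine (hP.2 I I.2).preimage_mono (f := fun m : ℤ => (m : ℝ) / ((n : ℝ) + 1)) ?_
        intro a b hab
        exact div_le_div_of_nonneg_right (by exact_mod_cast hab) (hpos n).le
      · obtain ⟨I, ⟨hI, hm⟩, hu⟩ := hP.1.2 ((m : ℝ) / ((n : ℝ) + 1))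
        exact ⟨⟨I, hI⟩, hm, fun J hJ => Subtype.ext (hu J ⟨J.2, hJ⟩)⟩
  calc (lqNorm q fun I : P => eLpNorm (lineD I f) p volume)
      ≤ lqNorm q fun I : P => A * eLpNorm (fun x => phi 0 • lineD I f x) p volume :=
        lq_mono hq fun I => hA X p _
    _ = A * lqNorm q fun I : P => eLpNorm (fun x => phi 0 • lineD I f x) p volume :=
        lq_const_mul hq _ _
    _ ≤ A * (L * (B * eLpNorm f p volume)) := by gcongr
    _ = ((A * L * B : ℝ≥0) : ℝ≥0∞) * eLpNorm f p volume := by
        push_cast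
        ring
    _ ≤ _ := by
        gcongr
        exact le_self_add

lemma left_or_left {P : Set (Set ℝ)} (hP : IsIntervalPartition P) {I J : P} (hIJ : I ≠ J) :
    (∀ a ∈ (I : Set ℝ), ∀ b ∈ (J : Set ℝ), a < b) ∨
      ∀ a ∈ (J : Set ℝ), ∀ b ∈ (I : Set ℝ), a < b := by
  have hdis : ∀ x, x ∈ (I : Set ℝ) → x ∈ (J : Set ℝ) → False := fun x h1 h2 =>
    hIJ (Subtype.ext ((hP.1.2 x).unique ⟨I.2, h1⟩ ⟨J.2, h2⟩))
  by_contra hcon
  push Not at hcon
  obtain ⟨⟨a, ha, b, hb, hab⟩, ⟨c, hc, d, hd, hcd⟩⟩ := hcon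
  rcases le_total a c with h | h
  · exact hdis a ha ((hP.2 J J.2).out hb hc ⟨hab, h⟩)
  · exact hdis c ((hP.2 I I.2).out hd ha ⟨hcd, h⟩) hc

lemma exists_rank {P : Set (Set ℝ)} (hP : IsIntervalPartition P) (J : Finset P) :
    ∃ ρ : P → ℕ, Set.InjOn ρ J ∧ ∀ i ∈ J, ∀ j ∈ J, ρ i < ρ j →
      ∀ a ∈ (i : Set ℝ), ∀ b ∈ (j : Set ℝ), a < b := by
  classical
  let ρ : P → ℕ := fun j => (J.filter fun i : P => ∀ a ∈ (i : Set ℝ), ∀ b ∈ (j : Set ℝ), a < b).card
  have key : ∀ i ∈ J, ∀ j : P, (∀ a ∈ (i : Set ℝ), ∀ b ∈ (j : Set ℝ), a < b) → ρ i < ρ j := by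
    intro i hi j hij
    obtain ⟨x, hx⟩ := Setoid.nonempty_of_mem_partition hP.1 i.2
    refine Finset.card_lt_card ⟨fun k hk => ?_, fun hsub => ?_⟩
    · rw [Finset.mem_filter] at hk ⊢
      exact ⟨hk.1, fun a ha b hb => (hk.2 a ha x hx).trans (hij x hx b hb)⟩
    · have := (Finset.mem_filter.mp (hsub (Finset.mem_filter.mpr ⟨hi, hij⟩))).2 x hx x hx
      exact lt_irrefl _ this
  refine ⟨ρ, fun i hi j hj hij => ?_, fun i hi j hj hij => ?_⟩
  · by_contra hne
    rcases left_or_left hP hne with h | h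
    · exact (key i hi j h).ne hij
    · exact (key j hj i h).ne hij.symm
  · rcases left_or_left hP (fun h => hij.ne (congrArg ρ h)) with h | h
    · exact h
    · exact absurd (key j hj i h) (not_lt.mpr hij.le)

lemma hasSum_lineD [CompleteSpace X] {P : Set (Set ℝ)} (hP : IsIntervalPartition P)
    (hc : P.Countable) {G : ℝ → X} (hG : Integrable G) (x : ℝ) :
    HasSum (fun I : P => 𝓕⁻ ((I : Set ℝ).indicator G) x) (𝓕⁻ G x) := by
  have : Countable P := hc.to_subtype
  have hi : Integrable fun ξ => ex (ξ * x) • G ξ :=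
    integrable_smul_of_bound hG (Continuous.measurable (by fun_prop)) fun ξ => (norm_ex _).le
  have h := hasSum_integral_iUnion (μ := volume) (s := fun I : P => (I : Set ℝ))
    (fun I => (hP.2 I I.2).measurableSet)
    (fun I J hIJ => hP.1.pairwiseDisjoint I.2 J.2 fun h => hIJ (Subtype.ext h)) hi.integrableOn
  have hU : (⋃ I : P, (I : Set ℝ)) = univ := by
    rw [← sUnion_eq_iUnion]
    exact hP.1.sUnion_eq_univ
  rw [hU, Measure.restrict_univ, ← fourierInv_eq_ex] at h
  convert h using 1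
  funext I
  rw [fourierInv_eq_ex, ← integral_indicator (hP.2 I I.2).measurableSet]
  congr 1
  funext ξ
  by_cases hξ : ξ ∈ (I : Set ℝ) <;> simp [hξ]

theorem upperLine_of_upperCircle [CompleteSpace X] (hp : 1 ≤ p) (hq : 1 ≤ q)
    (h : UpperCircle X p q) : UpperLine X p q := by
  obtain ⟨U, -, hU⟩ := h
  obtain ⟨A, hA⟩ := exists_phi_zero_inv
  obtain ⟨B, hB⟩ := exists_periodize_bound (X := X) hp
  refine ⟨A * U * B + 1, by positivity, fun P hP hPc f hf => ?_⟩
  obtain ⟨hG, ⟨R, hR⟩, hinv⟩ := schwartzC_facts hf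
  have hpos : ∀ n : ℕ, (0 : ℝ) < (n : ℝ) + 1 := fun n => by positivity
  have : Countable P := hPc.to_subtype
  have hGI : ∀ I : P, Integrable ((I : Set ℝ).indicator (𝓕 f)) := fun I =>
    hG.indicator (hP.2 I I.2).measurableSet
  have h1 : eLpNorm (fun x => phi 0 • f x) p volume
      ≤ U * (B * lqNorm q fun I : P => eLpNorm (lineD I f) p volume) := by
    refine eLpNorm_le_of_hasSum (h := fun (I : P) x => phi 0 • lineD I f x)
      (fun I => ((continuous_fourierInv' (hGI I)).const_smul (phi 0)).aestronglyMeasurable)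
      (ae_of_all _ fun x => ?_) fun J => ?_
    · have := (hasSum_lineD hP hPc hG x).const_smul (phi 0)
      rwa [hinv] at this
    · obtain ⟨ρ, hρ1, hρ2⟩ := exists_rank hP J
      let a : ℕ → P → ℤ → X := fun n I m =>
        coef ((n : ℝ) + 1) ((I : Set ℝ).indicator (𝓕 f)) (m - ρ I)
      have hc : ∀ (n : ℕ) (I : P),
          (Function.support (coef ((n : ℝ) + 1) ((I : Set ℝ).indicator (𝓕 f)))).Finite :=
        fun n I => finite_coef (hpos n).le (bound_indicator hR I)
      have ha : ∀ n I, (Function.support (a n I)).Finite := fun n I =>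
        (hc n I).preimage (f := fun m : ℤ => m - ρ I) (sub_left_injective.injOn)
      have hfin : ∀ n, (Function.support fun m => ∑ I ∈ J, a n I m).Finite := by
        intro n
        refine (Set.Finite.biUnion J.finite_toSet fun I _ => ha n I).subset fun m hm => ?_
        obtain ⟨j, hj, h⟩ := Finset.exists_ne_zero_of_sum_ne_zero hm
        exact mem_biUnion hj h
      refine (fatou_scale (F := fun n => tp fun m => ∑ I ∈ J, a n I m)
        (fun n => tp_continuous (hfin n)) fun x => ?_).trans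
        (liminf_le_of_frequently_le' (Frequently.of_forall fun n => ?_))
      · simp only [tp_sum J fun I _ => ha _ I]
        refine tendsto_finsetSum _ fun I _ => ?_
        simp only [a, tp_shift, fourier_coe_eq_ex]
        have t1 : Tendsto (fun n : ℕ => ex (((ρ I : ℤ) : ℝ) * (x / ((n : ℝ) + 1)))) atTop (𝓝 1) := by
          have := (tendsto_div_scale x).const_mul ((ρ I : ℤ) : ℝ)
          rw [mul_zero] at this
          rw [← ex_zero]
          exact (continuous_ex.tendsto _).comp this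
        have := t1.smul (tendsto_periodize (hGI I) (bound_indicator hR I) x)
        rwa [one_smul] at this
      · have h2 := upper_family hq hU J ρ hρ1 (a := a n) (fun I _ => ha n I) ?_
        · calc _ ≤ kap p ((n : ℝ) + 1) * (U * lqNorm q fun j : J =>
                eLpNorm (tp (a n j)) p AddCircle.haarAddCircle) := by gcongr
            _ = U * lqNorm q fun j : J => kap p ((n : ℝ) + 1) *
                eLpNorm (tp (a n j)) p AddCircle.haarAddCircle := by
              rw [lq_const_mul hq]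
              ring
            _ ≤ U * (B * lqNorm q fun I : P => eLpNorm (lineD I f) p volume) := by
              gcongr
              rw [← lq_const_mul hq]
              refine lq_le_of_rel hq (fun j I => (j : P) = I) (fun j _ => ⟨j, rfl, ?_⟩)
                fun j j' I h1 h2 => Subtype.ext (h1.trans h2.symm)
              have e : eLpNorm (tp (a n j)) p AddCircle.haarAddCircle
                  = eLpNorm (tp (coef ((n : ℝ) + 1) (((j : P) : Set ℝ).indicator (𝓕 f)))) p
                    AddCircle.haarAddCircle := by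
                refine eLpNorm_congr_norm_ae (ae_of_all _ fun t => ?_)
                simp only [a, tp_shift, norm_smul, fourier_apply, Circle.norm_coe, one_mul]
              rw [e]
              exact hB (hpos n) (hGI j) (bound_indicator hR j)
        · intro i hi j hj hij m m' hm hm'
          obtain ⟨ξ, h3, h4⟩ := exists_of_coef_ne_zero hm
          obtain ⟨ξ', h5, h6⟩ := exists_of_coef_ne_zero hm'
          have h7 := hρ2 i hi j hj hij ξ (mem_of_indicator_ne_zero h3) ξ'
            (mem_of_indicator_ne_zero h5)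
          have h8 := mul_lt_mul_of_pos_left h7 (hpos n)
          have h9 := abs_lt.mp h4
          have h10 := abs_lt.mp h6
          have h11 : ((m - ρ i : ℤ) : ℝ) < ((m' - ρ j + 1 : ℤ) : ℝ) := by
            push_cast at h9 h10 ⊢
            linarith [h9.2, h10.1]
          have h12 : m - ρ i < m' - ρ j + 1 := by exact_mod_cast h11
          omega
  calc eLpNorm f p volume ≤ A * eLpNorm (fun x => phi 0 • f x) p volume := hA X p f
    _ ≤ A * (U * (B * lqNorm q fun I : P => eLpNorm (lineD I f) p volume)) := by gcongr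
    _ = ((A * U * B : ℝ≥0) : ℝ≥0∞) * lqNorm q fun I : P => eLpNorm (lineD I f) p volume := by
        push_cast
        ring
    _ ≤ _ := by
        gcongr
        exact le_self_add

end Pool.Agent.Lib.MP_0880e2_an
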