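import Pool.Agent.Lib.MP_0880e2_an.Defs

open MeasureTheory
open scoped ENNReal NNReal

namespace Pool.Agent.Lib.MP_0880e2_an

variable (X : Type*) [NormedAddCommGroup X] [NormedSpace ℂ X]

/-- Upper `ℓ^q(L^p)`-decompositions on the line, for the partitions in the class `C`. -/
def UpperOn (C : Set (Set (Set ℝ))) (p q : ℝ≥0∞) : Prop :=
  ∃ U : ℝ≥0, 0 < U ∧ ∀ P ∈ C, ∀ f ∈ schwartzC X,
    eLpNorm f p volume ≤ U * lqNorm q fun I : P => eLpNorm (lineD I f) p volume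

/-- Lower `ℓ^q(L^p)`-decompositions on the line, for the partitions in the class `C`. -/
def LowerOn (C : Set (Set (Set ℝ))) (p q : ℝ≥0∞) : Prop :=
  ∃ L : ℝ≥0, 0 < L ∧ ∀ P ∈ C, ∀ f ∈ schwartzC X,
    (lqNorm q fun I : P => eLpNorm (lineD I f) p volume) ≤ L * eLpNorm f p volume

end Pool.Agent.Lib.MP_0880e2_an
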