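import Pool.Agent.Lib.MP_0880e2_an.CircleToLine
import Pool.Agent.Lib.MP_0880e2_an.DefsOn

open MeasureTheory Filter Topology Set
open scoped ENNReal NNReal FourierTransform SchwartzMap

namespace Pool.Agent.Lib.MP_0880e2_an

variable {X : Type*} [NormedAddCommGroup X] [NormedSpace ℂ X] {p q : ℝ≥0∞}
  {C : Set (Set (Set ℝ))}

lemma preimage_nontrivial {P : Set (Set ℤ)} (hP : IsIntervalPartition P) :
    ∀ I ∈ (fun I => rnd ⁻¹' I) '' P, I.Nontrivial := by
  rintro _ ⟨I, hI, rfl⟩
  obtain ⟨n, hn⟩ := Setoid.nonempty_of_mem_partition hP.1 hI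
  refine ⟨n, by rwa [mem_preimage, rnd_intCast], n + 1 / 32, ?_, by norm_num⟩
  rwa [mem_preimage, rnd_eq (n := n) (by norm_num [abs_of_pos])]

lemma countable_nontrivial {P : Set (Set ℝ)} (hP : IsIntervalPartition P) :
    Countable {I : P // (I : Set ℝ).Nontrivial} := by
  refine countable_univ_iff.1 (Set.PairwiseDisjoint.countable_of_nonempty_interior
    (s := fun I => (I.1 : Set ℝ)) (fun I _ J _ hIJ => hP.1.pairwiseDisjoint I.1.2 J.1.2
      fun h => hIJ (Subtype.ext (Subtype.ext h))) fun I _ => ?_)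
  obtain ⟨a, ha, b, hb, hab⟩ := I.2.exists_lt
  exact (nonempty_Ioo.2 hab).mono (isOpen_Ioo.subset_interior_iff.2
    (Ioo_subset_Icc_self.trans ((hP.2 _ I.1.2).out ha hb)))

lemma hasSum_nontrivial [CompleteSpace X] {P : Set (Set ℝ)} (hP : IsIntervalPartition P)
    (hN : volume {x : ℝ | {x} ∈ P} = 0) {G : ℝ → X} (hG : Integrable G) (x : ℝ) :
    HasSum (fun I : {I : P // (I : Set ℝ).Nontrivial} => 𝓕⁻ ((I.1 : Set ℝ).indicator G) x)
      (𝓕⁻ G x) := by
  have := countable_nontrivial hP
  have hi : Integrable fun ξ => ex (ξ * x) • G ξ :=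
    integrable_smul_of_bound hG (Continuous.measurable (by fun_prop)) fun ξ => (norm_ex _).le
  have h := hasSum_integral_iUnion (μ := volume)
    (s := fun I : {I : P // (I : Set ℝ).Nontrivial} => (I.1 : Set ℝ))
    (fun I => (hP.2 _ I.1.2).measurableSet)
    (fun I J hIJ => hP.1.pairwiseDisjoint I.1.2 J.1.2 fun h => hIJ (Subtype.ext (Subtype.ext h)))
    hi.integrableOn
  rw [Measure.restrict_eq_self_of_ae_mem, ← fourierInv_eq_ex] at h
  · convert h using 1
    funext I
    rw [fourierInv_eq_ex, ← integral_indicator (hP.2 _ I.1.2).measurableSet]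
    congr 1
    funext ξ
    by_cases hξ : ξ ∈ (I.1 : Set ℝ) <;> simp [hξ]
  · refine measure_mono_null (fun ξ hξ => ?_) hN
    obtain ⟨I, ⟨hI, h1⟩, -⟩ := hP.1.2 ξ
    by_cases h2 : I.Nontrivial
    · exact absurd (mem_iUnion.2 ⟨⟨⟨I, hI⟩, h2⟩, h1⟩) hξ
    · rwa [(not_nontrivial_iff.1 h2).eq_singleton_of_mem h1] at hI

theorem upperCircle_of_upperOn [CompleteSpace X] (hp : 1 ≤ p) (hq : 1 ≤ q)
    (hC : ∀ P, IsIntervalPartition P → (∀ I ∈ P, I.Nontrivial) → P ∈ C) (h : UpperOn X C p q) :
    UpperCircle X p q := by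
  obtain ⟨U, -, hU⟩ := h
  obtain ⟨A, hA⟩ := exists_low (X := X) (p := p)
  obtain ⟨B, hB⟩ := exists_up (X := X) hp
  refine ⟨A * U * B + 1, by positivity, fun P hP f hf => ?_⟩
  obtain ⟨a, ha, rfl⟩ := exists_tp hf
  have h1 := hU _ (hC _ (preimage_partition hP).1 (preimage_nontrivial hP)) _ (phi_tp_mem ha)
  have h2 : (lqNorm q fun I : ((fun I => rnd ⁻¹' I) '' P : Set (Set ℝ)) =>
      eLpNorm (lineD I fun x : ℝ => phi x • tp a x) p volume)
      ≤ B * lqNorm q fun I : P => eLpNorm (circleD I (tp a)) p AddCircle.haarAddCircle := by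
    rw [← lq_const_mul hq]
    refine lq_le_of_rel hq (fun I' I => (I' : Set ℝ) = rnd ⁻¹' (I : Set ℤ)) ?_
      fun I I' J h1 h2 => Subtype.ext (h1.trans h2.symm)
    rintro ⟨_, I, hI, rfl⟩ -
    refine ⟨⟨I, hI⟩, rfl, ?_⟩
    simp only [lineD_phi_tp ha, circleD_tp ha]
    exact hB _ (tp_continuous (finite_support_indicator ha I))
  calc eLpNorm (tp a) p AddCircle.haarAddCircle
      ≤ A * eLpNorm (fun x : ℝ => phi x • tp a x) p volume := hA _ (tp_continuous ha)
    _ ≤ A * (U * (B * lqNorm q fun I : P =>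
          eLpNorm (circleD I (tp a)) p AddCircle.haarAddCircle)) := by
        gcongr
        exact h1.trans (by gcongr)
    _ = ((A * U * B : ℝ≥0) : ℝ≥0∞) * lqNorm q fun I : P =>
          eLpNorm (circleD I (tp a)) p AddCircle.haarAddCircle := by
        push_cast
        ring
    _ ≤ _ := by
        gcongr
        exact le_self_add

theorem lowerCircle_of_lowerOn [CompleteSpace X] (hp : 1 ≤ p) (hq : 1 ≤ q)
    (hC : ∀ P, IsIntervalPartition P → (∀ I ∈ P, I.Nontrivial) → P ∈ C) (h : LowerOn X C p q) :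
    LowerCircle X p q := by
  obtain ⟨L, -, hL⟩ := h
  obtain ⟨A, hA⟩ := exists_low (X := X) (p := p)
  obtain ⟨B, hB⟩ := exists_up (X := X) hp
  refine ⟨A * L * B + 1, by positivity, fun P hP f hf => ?_⟩
  obtain ⟨a, ha, rfl⟩ := exists_tp hf
  have h1 := hL _ (hC _ (preimage_partition hP).1 (preimage_nontrivial hP)) _ (phi_tp_mem ha)
  have h2 : (lqNorm q fun I : P => eLpNorm (circleD I (tp a)) p AddCircle.haarAddCircle)
      ≤ A * lqNorm q fun I : ((fun I => rnd ⁻¹' I) '' P : Set (Set ℝ)) =>
        eLpNorm (lineD I fun x : ℝ => phi x • tp a x) p volume := by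
    rw [← lq_const_mul hq]
    refine lq_le_of_rel hq (fun I I' => (I' : Set ℝ) = rnd ⁻¹' (I : Set ℤ)) ?_
      fun I I' J h1 h2 => Subtype.ext (preimage_rnd_injective (h1.symm.trans h2))
    rintro ⟨I, hI⟩ -
    refine ⟨⟨_, I, hI, rfl⟩, rfl, ?_⟩
    simp only [lineD_phi_tp ha, circleD_tp ha]
    exact hA _ (tp_continuous (finite_support_indicator ha I))
  calc _ ≤ _ := h2
    _ ≤ A * (L * (B * eLpNorm (tp a) p AddCircle.haarAddCircle)) := by
        gcongr
        exact h1.trans (by gcongr; exact hB _ (tp_continuous ha))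
    _ = ((A * L * B : ℝ≥0) : ℝ≥0∞) * eLpNorm (tp a) p AddCircle.haarAddCircle := by
        push_cast
        ring
    _ ≤ _ := by
        gcongr
        exact le_self_add

theorem lowerOn_of_lowerCircle [CompleteSpace X] (hp : 1 ≤ p) (hq : 1 ≤ q)
    (hC : ∀ P ∈ C, IsIntervalPartition P) (h : LowerCircle X p q) : LowerOn X C p q := by
  obtain ⟨L, -, hL⟩ := h
  obtain ⟨A, hA⟩ := exists_phi_zero_inv
  obtain ⟨B, hB⟩ := exists_periodize_bound (X := X) hp
  refine ⟨A * L * B + 1, by positivity, fun P hP f hf => ?_⟩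
  replace hP := hC P hP
  obtain ⟨hG, ⟨R, hR⟩, hinv⟩ := schwartzC_facts hf
  have hpos : ∀ n : ℕ, (0 : ℝ) < (n : ℝ) + 1 := fun n => by positivity
  have h1 : (lqNorm q fun I : P => eLpNorm (fun x => phi 0 • lineD I f x) p volume)
      ≤ L * (B * eLpNorm f p volume) := by
    refine lq_le_of_liminf hq (b := fun (n : ℕ) (I : P) => kap p ((n : ℝ) + 1) *
      eLpNorm (tp ({m : ℤ | (m : ℝ) / ((n : ℝ) + 1) ∈ (I : Set ℝ)}.indicator
        (coef ((n : ℝ) + 1) (𝓕 f)))) p AddCircle.haarAddCircle) (fun I => ?_) fun n => ?_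
    · exact fatou_scale (fun n => tp_continuous
        (finite_support_indicator (finite_coef (hpos n).le hR) _))
        (tendsto_periodize_indicator hG hR (hP.2 I I.2))
    · rw [lq_const_mul hq]
      have h2 := lower_family hq hL
        (fun I : P => {m : ℤ | (m : ℝ) / ((n : ℝ) + 1) ∈ (I : Set ℝ)}) (fun I => ?_) (fun m => ?_)
        (finite_coef (hpos n).le hR)
      · calc _ ≤ kap p ((n : ℝ) + 1) * (L * eLpNorm (tp (coef ((n : ℝ) + 1) (𝓕 f))) p
              AddCircle.haarAddCircle) := by gcongr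
          _ = L * (kap p ((n : ℝ) + 1) * eLpNorm (tp (coef ((n : ℝ) + 1) (𝓕 f))) p
              AddCircle.haarAddCircle) := by ring
          _ ≤ L * (B * eLpNorm f p volume) := by
            have := hB (hpos n) hG hR
            rw [hinv] at this
            exact mul_le_mul_right this _
      · refine (hP.2 I I.2).preimage_mono (f := fun m : ℤ => (m : ℝ) / ((n : ℝ) + 1)) ?_
        intro a b hab
        exact div_le_div_of_nonneg_right (by exact_mod_cast hab) (hpos n).le
      · obtain ⟨I, ⟨hI, hm⟩, hu⟩ := hP.1.2 ((m : ℝ) / ((n : ℝ) + 1))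
        exact ⟨⟨I, hI⟩, hm, fun J hJ => Subtype.ext (hu J ⟨J.2, hJ⟩)⟩
  calc (lqNorm q fun I : P => eLpNorm (lineD I f) p volume)
      ≤ lqNorm q fun I : P => A * eLpNorm (fun x => phi 0 • lineD I f x) p volume :=
        lq_mono hq fun I => hA X p _
    _ = A * lqNorm q fun I : P => eLpNorm (fun x => phi 0 • lineD I f x) p volume :=
        lq_const_mul hq _ _
    _ ≤ A * (L * (B * eLpNorm f p volume)) := by gcongr
    _ = ((A * L * B : ℝ≥0) : ℝ≥0∞) * eLpNorm f p volume := by
        push_cast
        ring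
    _ ≤ _ := by
        gcongr
        exact le_self_add

theorem upperOn_of_upperCircle [CompleteSpace X] (hp : 1 ≤ p) (hq : 1 ≤ q)
    (hC : ∀ P ∈ C, IsIntervalPartition P) (hN : ∀ P ∈ C, volume {x : ℝ | {x} ∈ P} = 0)
    (h : UpperCircle X p q) : UpperOn X C p q := by
  obtain ⟨U, -, hU⟩ := h
  obtain ⟨A, hA⟩ := exists_phi_zero_inv
  obtain ⟨B, hB⟩ := exists_periodize_bound (X := X) hp
  refine ⟨A * U * B + 1, by positivity, fun P hP f hf => ?_⟩
  replace hN := hN P hP
  replace hP := hC P hP
  obtain ⟨hG, ⟨R, hR⟩, hinv⟩ := schwartzC_facts hf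
  have hpos : ∀ n : ℕ, (0 : ℝ) < (n : ℝ) + 1 := fun n => by positivity
  have := countable_nontrivial hP
  have hGI : ∀ I : P, Integrable ((I : Set ℝ).indicator (𝓕 f)) := fun I =>
    hG.indicator (hP.2 I I.2).measurableSet
  have h1 : eLpNorm (fun x => phi 0 • f x) p volume
      ≤ U * (B * lqNorm q fun I : P => eLpNorm (lineD I f) p volume) := by
    refine eLpNorm_le_of_hasSum
      (h := fun (I : {I : P // (I : Set ℝ).Nontrivial}) x => phi 0 • lineD I.1 f x)
      (fun I => ((continuous_fourierInv' (hGI I.1)).const_smul (phi 0)).aestronglyMeasurable)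
      (ae_of_all _ fun x => ?_) fun J' => ?_
    · have := (hasSum_nontrivial hP hN hG x).const_smul (phi 0)
      rwa [hinv] at this
    · have e : ∀ x, ∑ I ∈ J', phi 0 • lineD I.1 f x =
          ∑ I ∈ J'.map (Function.Embedding.subtype _), phi 0 • lineD I f x := fun x => by
        rw [Finset.sum_map]
        rfl
      simp only [e]
      generalize J'.map (Function.Embedding.subtype _) = J
      obtain ⟨ρ, hρ1, hρ2⟩ := exists_rank hP J
      let a : ℕ → P → ℤ → X := fun n I m =>
        coef ((n : ℝ) + 1) ((I : Set ℝ).indicator (𝓕 f)) (m - ρ I)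
      have hc : ∀ (n : ℕ) (I : P),
          (Function.support (coef ((n : ℝ) + 1) ((I : Set ℝ).indicator (𝓕 f)))).Finite :=
        fun n I => finite_coef (hpos n).le (bound_indicator hR I)
      have ha : ∀ n I, (Function.support (a n I)).Finite := fun n I =>
        (hc n I).preimage (f := fun m : ℤ => m - ρ I) (sub_left_injective.injOn)
      have hfin : ∀ n, (Function.support fun m => ∑ I ∈ J, a n I m).Finite := by
        intro n
        refine (Set.Finite.biUnion J.finite_toSet fun I _ => ha n I).subset fun m hm => ?_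
        obtain ⟨j, hj, h⟩ := Finset.exists_ne_zero_of_sum_ne_zero hm
        exact mem_biUnion hj h
      refine (fatou_scale (F := fun n => tp fun m => ∑ I ∈ J, a n I m)
        (fun n => tp_continuous (hfin n)) fun x => ?_).trans
        (liminf_le_of_frequently_le' (Frequently.of_forall fun n => ?_))
      · simp only [tp_sum J fun I _ => ha _ I]
        refine tendsto_finsetSum _ fun I _ => ?_
        simp only [a, tp_shift, fourier_coe_eq_ex]
        have t1 : Tendsto (fun n : ℕ => ex (((ρ I : ℤ) : ℝ) * (x / ((n : ℝ) + 1)))) atTop (𝓝 1) := by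
          have := (tendsto_div_scale x).const_mul ((ρ I : ℤ) : ℝ)
          rw [mul_zero] at this
          rw [← ex_zero]
          exact (continuous_ex.tendsto _).comp this
        have := t1.smul (tendsto_periodize (hGI I) (bound_indicator hR I) x)
        rwa [one_smul] at this
      · have h2 := upper_family hq hU J ρ hρ1 (a := a n) (fun I _ => ha n I) ?_
        · calc _ ≤ kap p ((n : ℝ) + 1) * (U * lqNorm q fun j : J =>
                eLpNorm (tp (a n j)) p AddCircle.haarAddCircle) := by gcongr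
            _ = U * lqNorm q fun j : J => kap p ((n : ℝ) + 1) *
                eLpNorm (tp (a n j)) p AddCircle.haarAddCircle := by
              rw [lq_const_mul hq]
              ring
            _ ≤ U * (B * lqNorm q fun I : P => eLpNorm (lineD I f) p volume) := by
              gcongr
              rw [← lq_const_mul hq]
              refine lq_le_of_rel hq (fun j I => (j : P) = I) (fun j _ => ⟨j, rfl, ?_⟩)
                fun j j' I h1 h2 => Subtype.ext (h1.trans h2.symm)
              have e : eLpNorm (tp (a n j)) p AddCircle.haarAddCircle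
                  = eLpNorm (tp (coef ((n : ℝ) + 1) (((j : P) : Set ℝ).indicator (𝓕 f)))) p
                    AddCircle.haarAddCircle := by
                refine eLpNorm_congr_norm_ae (ae_of_all _ fun t => ?_)
                simp only [a, tp_shift, norm_smul, fourier_apply, Circle.norm_coe, one_mul]
              rw [e]
              exact hB (hpos n) (hGI j) (bound_indicator hR j)
        · intro i hi j hj hij m m' hm hm'
          obtain ⟨ξ, h3, h4⟩ := exists_of_coef_ne_zero hm
          obtain ⟨ξ', h5, h6⟩ := exists_of_coef_ne_zero hm'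
          have h7 := hρ2 i hi j hj hij ξ (mem_of_indicator_ne_zero h3) ξ'
            (mem_of_indicator_ne_zero h5)
          have h8 := mul_lt_mul_of_pos_left h7 (hpos n)
          have h9 := abs_lt.mp h4
          have h10 := abs_lt.mp h6
          have h11 : ((m - ρ i : ℤ) : ℝ) < ((m' - ρ j + 1 : ℤ) : ℝ) := by
            push_cast at h9 h10 ⊢
            linarith [h9.2, h10.1]
          have h12 : m - ρ i < m' - ρ j + 1 := by exact_mod_cast h11
          omega
  calc eLpNorm f p volume ≤ A * eLpNorm (fun x => phi 0 • f x) p volume := hA X p f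
    _ ≤ A * (U * (B * lqNorm q fun I : P => eLpNorm (lineD I f) p volume)) := by gcongr
    _ = ((A * U * B : ℝ≥0) : ℝ≥0∞) * lqNorm q fun I : P => eLpNorm (lineD I f) p volume := by
        push_cast
        ring
    _ ≤ _ := by
        gcongr
        exact le_self_add

theorem upperCircle_one [CompleteSpace X] (hp : 1 ≤ p) : UpperCircle X p 1 := by
  refine upperCircle_of_upperLine hp le_rfl ⟨1, one_pos, fun P hP hc f hf => ?_⟩
  obtain ⟨hG, -, hinv⟩ := schwartzC_facts hf
  have : Countable P := hc.to_subtype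
  have h := eLpNorm_le_tsum (μ := volume) hp (h := fun I : P => lineD I f) (H := f)
    (fun I => (continuous_fourierInv' (hG.indicator (hP.2 I I.2).measurableSet)).aestronglyMeasurable)
    (ae_of_all _ fun x => by
      have := hasSum_lineD hP hc hG x
      rwa [hinv] at this)
  simpa [lqNorm] using h

theorem not_upperOn [Nontrivial X] (hp : 1 ≤ p) (hq : 1 ≤ q) (hC : range singleton ∈ C) :
    ¬ UpperOn X C p q := by
  rintro ⟨U, -, hU⟩
  obtain ⟨v, hv⟩ := exists_ne (0 : X)
  obtain ⟨c, hc, h0⟩ := exists_phi_lower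
  have hf := mem_schwartzC {(0 : ℝ)} phiS (fun _ => v) fun s => by
    rw [fourier_phiS]
    exact hasCompactSupport_psi_sub _
  simp only [Finset.sum_singleton] at hf
  have h1 := hU _ hC _ hf
  have h2 : ∀ I : (range singleton : Set (Set ℝ)),
      eLpNorm (lineD I fun t => phiS 0 t • v) p volume = 0 * 0 := by
    rintro ⟨_, y, rfl⟩
    rw [mul_zero, ← eLpNorm_zero (μ := (volume : Measure ℝ)) (p := p) (ε := X)]
    congr 1
    funext x
    rw [lineD, fourierInv_eq_ex]
    refine integral_eq_zero_of_ae (measure_mono_null (fun ξ hξ => ?_) (measure_singleton y))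
    by_contra h3
    exact hξ ((congrArg _ (indicator_of_notMem h3 _)).trans (smul_zero _))
  have hcont : Continuous fun t => phiS 0 t • v := (phiS 0).continuous.smul continuous_const
  simp only [h2] at h1
  rw [lq_const_mul hq, zero_mul, mul_zero, nonpos_iff_eq_zero,
    eLpNorm_eq_zero_iff hcont.aestronglyMeasurable (zero_lt_one.trans_le hp).ne',
    hcont.ae_eq_iff_eq volume continuous_zero] at h1
  have h4 : phi 0 • v = 0 := congrFun h1 0
  have h5 := h0 0 (by simp)
  rw [(smul_eq_zero.1 h4).resolve_right hv, norm_zero] at h5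
  exact absurd hc (not_lt.2 h5)

end Pool.Agent.Lib.MP_0880e2_an
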