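import Mathlib
import Pool.Agent.Lib.MP_0880e2_an.Defs
import Pool.Agent.Lib.MP_0880e2_an.CircleToLine

open scoped ENNReal

namespace Pool.Agent.Lib.MP_0880e2_an.Transference

open Pool.Agent.Lib.MP_0880e2_an

/-- For every complex Banach space `X` and all `p, q ∈ [1,∞]`, upper (resp. lower)
`ℓ^q(L^p)`-decompositions on the circle and on the line are equivalent. -/
theorem result (X : Type*) [NormedAddCommGroup X] [NormedSpace ℂ X] [CompleteSpace X]
    (p q : ℝ≥0∞) (hp : 1 ≤ p) (hq : 1 ≤ q) :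
    (UpperCircle X p q ↔ UpperLine X p q) ∧ (LowerCircle X p q ↔ LowerLine X p q) :=
  ⟨⟨upperLine_of_upperCircle hp hq, upperCircle_of_upperLine hp hq⟩,
    ⟨lowerLine_of_lowerCircle hp hq, lowerCircle_of_lowerLine hp hq⟩⟩

end Pool.Agent.Lib.MP_0880e2_an.Transference
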